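import Pool.Agent.SNP.Defs

/-!
# SNP block A: definitions

`Ω = PadicAlgCl p` with its norm (Mathlib: normed field, `IsUltrametricDist`, algebraically closed).
-/

set_option autoImplicit false

namespace Pool.Agent.SNP

open Pool.Agent.Helper59.DML

/-- `x` and `y` are nonzero and have the same leading term: `x = y (1 + small)`. -/
def Sim {K : Type*} [NormedField K] (x y : K) : Prop := ‖x - y‖ < ‖y‖

/-- the coordinate `t` of the point `z = X a + Y a'` (`det2 a a' = 1`): `t = Y / X`. -/
def tco {K : Type*} [Field K] (a a' z : Fin 2 → K) : K := det2 a z / det2 z a'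

/-- the vector `a + t a'`. -/
def lin {K : Type*} [Field K] (a a' : Fin 2 → K) (t : K) : Fin 2 → K := fun k => a k + t * a' k

/-- the inclusion of `ℚ_p` in its algebraic closure. -/
noncomputable abbrev al (p : ℕ) [Fact p.Prime] : ℚ_[p] →+* PadicAlgCl p := algebraMap ℚ_[p] (PadicAlgCl p)

end Pool.Agent.SNP
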