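import Pool.Agent.SNP.A.Disc

/-!
# SNP-A-CAPT: a critical point which is periodic modulo `p`: the return map

PROOF. `w₁ = hlift c w`, `‖w₁‖ = 1` (good reduction). Choose `w'`, `w₁'` with norms `≤ 1` and `det2 w w' = 1`, `det2 w₁ w₁' = 1` (`exists_compl` of `DML/Transfer.lean`). First step: `disc_crit` for `a = w`: `e₀, γ₀`, `2 ≤ e₀ ≤ d`. Second step: `disc_main` with `n = m - 1`,
`a = w₁`, `b = w` (`‖det2 w (f^(m-1) w₁)‖ = ‖det2 (f^m w) w‖ < 1`): `e₁ ≥ 1, γ₁`. `α = tco w w' (f^m w) = det2 w (f^m w) / det2 (f^m w) w'`, `0 < ‖α‖ < 1`, `a₀ = ‖α‖ = ‖det2 (f^m w) w‖` (the denominator has norm one). `ℓ` a prime divisor of `e₀` (`ℓ ≤ e₀ ≤ d`), `e = e₀ e₁`, `γ = γ₁ γ₀^e₁`.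
Let `z, z'` be as in the statement, `t = tco w w' z`, `t' = tco w w' z'`, `‖t'‖ < 1` (numerator `< 1`, denominator of norm one since `z' = (det2 z' w') w + (det2 w z') w'` is primitive). `z' = X' · lin w w' t'` with `X' = det2 z' w'`. `y₁ = hlift c (lin w w' t')`, `s = tco w₁ w₁' y₁`, `‖s‖ ≤ ‖t'‖²`,
`y₁ = X₁ · lin w₁ w₁' s`; `y = f^(m-1) (lin w₁ w₁' s)`; `f^m z'` is a nonzero multiple of `y` (`hlift_smul`, `hlift_iter_smul`) and proportional to `z`, so `tco w w' y = t` (`tco` is invariant under nonzero scalars; both vectors are nonzero and proportional).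
So `‖t - α‖ ≤ ‖s‖ ≤ ‖t'‖²`. If `t = 0` or `a₀ < ‖t‖` then `‖t - α‖ = max a₀ ‖t‖`. If `p⁻¹ < ‖t‖`: `Sim t (γ₁ s^e₁)`, so `‖s‖ = ‖t‖^(1/e₁) ≥ ‖t‖ > p⁻¹` (`‖s‖^e₁ = ‖t‖`, `‖s‖ < 1`, `e₁ ≥ 1`), so `Sim s (γ₀ t'^e₀)`; combine with `Sim.pow`, `Sim.mul`, `Sim.trans`.
-/

set_option autoImplicit false

namespace Pool.Agent.SNP

open Pool.Agent.Helper59.DML

section
variable {K : Type*} [NormedField K] [IsUltrametricDist K]

private theorem det2_norm_le (u v : Fin 2 → K) : ‖det2 u v‖ ≤ ‖u‖ * ‖v‖ := by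
  unfold det2
  have h0 := norm_le_pi_norm u 0
  have h1 := norm_le_pi_norm u 1
  have k0 := norm_le_pi_norm v 0
  have k1 := norm_le_pi_norm v 1
  have hs : ‖u 0 * v 1 - u 1 * v 0‖ ≤ max ‖u 0 * v 1‖ ‖u 1 * v 0‖ := by
    rw [sub_eq_add_neg, ← norm_neg (u 1 * v 0)]
    exact IsUltrametricDist.norm_add_le_max _ _
  refine hs.trans (max_le ?_ ?_)
  · rw [norm_mul]
    exact mul_le_mul h0 k1 (norm_nonneg _) (norm_nonneg _)
  · rw [norm_mul]
    exact mul_le_mul h1 k0 (norm_nonneg _) (norm_nonneg _)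

private theorem comb {F : Type*} [Field F] {a a' : Fin 2 → F} (h : det2 a a' = 1) (z : Fin 2 → F) (k : Fin 2) :
    z k = det2 z a' * a k + det2 a z * a' k := by
  have h' : z k = det2 a a' * z k := by rw [h, one_mul]
  rw [h']
  unfold det2
  fin_cases k
  · simp only [Fin.zero_eta]
    ring
  · simp only [Fin.mk_one]
    ring

private theorem coord {a a' z : Fin 2 → K} (ha : ‖a‖ ≤ 1) (ha' : ‖a'‖ ≤ 1) (h : det2 a a' = 1) (hz : ‖z‖ = 1)
    (hd : ‖det2 a z‖ < 1) : ‖det2 z a'‖ = 1 := by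
  have h1 : ‖det2 z a'‖ ≤ 1 := by
    refine (det2_norm_le _ _).trans ?_
    rw [hz, one_mul]
    exact ha'
  by_contra hne
  have hlt : ‖det2 z a'‖ < 1 := lt_of_le_of_ne h1 hne
  have hb : ∀ k, ‖z k‖ ≤ max ‖det2 z a'‖ ‖det2 a z‖ := by
    intro k
    rw [comb h z k]
    refine (IsUltrametricDist.norm_add_le_max _ _).trans (max_le_max ?_ ?_)
    · rw [norm_mul]
      exact mul_le_of_le_one_right (norm_nonneg _) ((norm_le_pi_norm a k).trans ha)
    · rw [norm_mul]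
      exact mul_le_of_le_one_right (norm_nonneg _) ((norm_le_pi_norm a' k).trans ha')
  have hz' : ‖z‖ ≤ max ‖det2 z a'‖ ‖det2 a z‖ :=
    (pi_norm_le_iff_of_nonneg (le_max_of_le_left (norm_nonneg _))).2 hb
  rw [hz] at hz'
  exact absurd hz' (not_le.2 (max_lt hlt hd))

private theorem tco_eq {F : Type*} [Field F] {a a' y z : Fin 2 → F} (h : det2 y z = 0) (hy : det2 y a' ≠ 0)
    (hz : det2 z a' ≠ 0) : tco a a' y = tco a a' z := by
  unfold tco
  rw [div_eq_div_iff hy hz]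
  have : det2 a y * det2 z a' - det2 a z * det2 y a' = - (det2 a a' * det2 y z) := by
    unfold det2; ring
  rw [h, mul_zero, neg_zero] at this
  exact sub_eq_zero.1 this

private theorem eq_smul_lin {F : Type*} [Field F] {a a' z : Fin 2 → F} (h : det2 a a' = 1) (hz : det2 z a' ≠ 0) :
    z = fun k => det2 z a' * lin a a' (tco a a' z) k := by
  funext k
  unfold lin tco
  have h1 : det2 z a' * (a k + det2 a z / det2 z a' * a' k) = det2 z a' * a k + det2 a z * a' k := by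
    field_simp
  rw [h1]
  exact comb h z k

private theorem det2_smul_left {F : Type*} [Field F] (l : F) (y z : Fin 2 → F) :
    det2 (fun k => l * y k) z = l * det2 y z := by
  unfold det2; ring

end

private theorem compl_aux {K : Type*} [NormedField K] {u : Fin 2 → K} (hu : ‖u‖ = 1) :
    ∃ w : Fin 2 → K, ‖w‖ ≤ 1 ∧ det2 u w = 1 := by
  have hcases : ‖u 0‖ = 1 ∨ ‖u 1‖ = 1 := by
    by_contra hcon
    rw [not_or] at hcon
    have h3 : ∀ k, ‖u k‖ < 1 := by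
      intro k
      fin_cases k
      · exact lt_of_le_of_ne ((norm_le_pi_norm u 0).trans hu.le) hcon.1
      · exact lt_of_le_of_ne ((norm_le_pi_norm u 1).trans hu.le) hcon.2
    have := (pi_norm_lt_iff one_pos).2 h3
    linarith
  rcases hcases with h2 | h2
  · have hne : u 0 ≠ 0 := by intro h; rw [h] at h2; simp at h2
    refine ⟨![0, (u 0)⁻¹], (pi_norm_le_iff_of_nonneg zero_le_one).2 fun k => ?_, ?_⟩
    · fin_cases k <;> simp [h2]
    · simp [det2, hne]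
  · have hne : u 1 ≠ 0 := by intro h; rw [h] at h2; simp at h2
    refine ⟨![-(u 1)⁻¹, 0], (pi_norm_le_iff_of_nonneg zero_le_one).2 fun k => ?_, ?_⟩
    · fin_cases k <;> simp [h2]
    · simp [det2, hne]

private theorem norm_vmap {p : ℕ} [Fact p.Prime] (v : Fin 2 → ℚ_[p]) : ‖vmap (al p) v‖ = ‖v‖ := by
  apply le_antisymm
  · refine (pi_norm_le_iff_of_nonneg (norm_nonneg _)).2 fun k => ?_
    show ‖al p (v k)‖ ≤ _
    rw [norm_al]
    exact norm_le_pi_norm v k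
  · refine (pi_norm_le_iff_of_nonneg (norm_nonneg _)).2 fun k => ?_
    rw [← norm_al]
    exact norm_le_pi_norm (vmap (al p) v) k

private theorem iter_norm {K : Type*} [NormedField K] {d : ℕ} {c : Fin 2 → Fin (d + 1) → K} (hg : GoodRed c) (n : ℕ)
    {u : Fin 2 → K} (hu : ‖u‖ = 1) : ‖(hlift c)^[n] u‖ = 1 := by
  induction n with
  | zero => simpa using hu
  | succ n ih =>
    rw [Function.iterate_succ_apply']
    exact hg.2 _ ih

private theorem iter_norm' {p : ℕ} [Fact p.Prime] {d : ℕ} {c : Fin 2 → Fin (d + 1) → ℚ_[p]}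
    (hg : GoodRed (cmap (al p) c)) (n : ℕ) {u : Fin 2 → ℚ_[p]} (hu : ‖u‖ = 1) : ‖(hlift c)^[n] u‖ = 1 := by
  rw [← norm_vmap, vmap_hlift_iter]
  exact iter_norm hg n (by rw [norm_vmap]; exact hu)

theorem capt {p : ℕ} [Fact p.Prime] {d : ℕ} (hd : 2 ≤ d) {c : Fin 2 → Fin (d + 1) → ℚ_[p]} (hg : GoodRed (cmap (al p) c))
    {w : Fin 2 → ℚ_[p]} (hw : ‖w‖ = 1) (hj : jac c w = 0) {m : ℕ} (hm : 1 ≤ m) (hper : ‖det2 ((hlift c)^[m] w) w‖ < 1)
    (hne : det2 ((hlift c)^[m] w) w ≠ 0) :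
    ∃ (w' : Fin 2 → ℚ_[p]) (a₀ : ℝ) (e ℓ : ℕ) (γ : ℚ_[p]), ‖w'‖ ≤ 1 ∧ det2 w w' = 1 ∧ 0 < a₀ ∧ a₀ < 1 ∧ ℓ.Prime ∧ ℓ ≤ d ∧
      ℓ ∣ e ∧ 1 ≤ e ∧ ‖γ‖ = 1 ∧ ∀ z z' : Fin 2 → PadicAlgCl p, ‖z‖ = 1 → ‖z'‖ = 1 →
        ‖det2 (vmap (al p) w) z‖ < 1 → ‖det2 (vmap (al p) w) z'‖ < 1 →
        det2 ((hlift (cmap (al p) c))^[m] z') z = 0 →
        (tco (vmap (al p) w) (vmap (al p) w') z = 0 ∨ a₀ < ‖tco (vmap (al p) w) (vmap (al p) w') z‖ →
          max a₀ ‖tco (vmap (al p) w) (vmap (al p) w') z‖ ≤ ‖tco (vmap (al p) w) (vmap (al p) w') z'‖ ^ 2) ∧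
        ((p : ℝ)⁻¹ < ‖tco (vmap (al p) w) (vmap (al p) w') z‖ →
          Sim (tco (vmap (al p) w) (vmap (al p) w') z) (al p γ * tco (vmap (al p) w) (vmap (al p) w') z' ^ e)) := by
  classical
  have hw₁ : ‖hlift c w‖ = 1 := iter_norm' hg 1 hw
  obtain ⟨w', hw', hww⟩ := compl_aux hw
  obtain ⟨w₁', hw₁', hww₁⟩ := compl_aux hw₁
  obtain ⟨e₀, γ₀, he2, hed, hγ₀, H₀⟩ := disc_crit (by omega : 1 ≤ d) hg hw hw' hw₁' hww hww₁ hj
  have hitm : (hlift c)^[m - 1] (hlift c w) = (hlift c)^[m] w := by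
    rw [← Function.iterate_succ_apply]
    congr 1
    omega
  have hsymm : det2 w ((hlift c)^[m] w) = - det2 ((hlift c)^[m] w) w := by unfold det2; ring
  have hlt : ‖det2 w ((hlift c)^[m] w)‖ < 1 := by rw [hsymm, norm_neg]; exact hper
  obtain ⟨e₁, γ₁, he₁, hγ₁, H₁⟩ := disc_main (by omega : 1 ≤ d) hg (m - 1) hw₁ hw₁' hw hw' hww₁ hww
    (by rw [hitm]; exact hlt)
  rw [hitm] at H₁
  have hden : ‖det2 ((hlift c)^[m] w) w'‖ = 1 := coord hw.le hw' hww (iter_norm' hg m hw) hlt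
  have hα : ‖tco w w' ((hlift c)^[m] w)‖ = ‖det2 ((hlift c)^[m] w) w‖ := by
    unfold tco
    rw [norm_div, hden, div_one, hsymm, norm_neg]
  have he0 : e₀ ≠ 1 := by omega
  refine ⟨w', ‖tco w w' ((hlift c)^[m] w)‖, e₀ * e₁, e₀.minFac, γ₁ * γ₀ ^ e₁, hw', hww, ?_, ?_, Nat.minFac_prime he0,
    (Nat.minFac_le (by omega)).trans hed, Dvd.dvd.mul_right (Nat.minFac_dvd e₀) e₁,
    Nat.mul_pos (by omega) he₁, ?_, ?_⟩
  · rw [hα]; exact norm_pos_iff.2 hne
  · rw [hα]; exact hper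
  · rw [norm_mul, norm_pow, hγ₀, hγ₁, one_pow, mul_one]
  intro z z' hz hz' hdz hdz' hprop
  have hWW : det2 (vmap (al p) w) (vmap (al p) w') = 1 := by rw [← map_det2, hww, map_one]
  have hW : ‖vmap (al p) w‖ ≤ 1 := by rw [norm_vmap]; exact hw.le
  have hW' : ‖vmap (al p) w'‖ ≤ 1 := by rw [norm_vmap]; exact hw'
  have hWW₁ : det2 (vmap (al p) (hlift c w)) (vmap (al p) w₁') = 1 := by rw [← map_det2, hww₁, map_one]
  have hX : ‖det2 z (vmap (al p) w')‖ = 1 := coord hW hW' hWW hz hdz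
  have hX' : ‖det2 z' (vmap (al p) w')‖ = 1 := coord hW hW' hWW hz' hdz'
  have hXne : det2 z (vmap (al p) w') ≠ 0 := by
    intro h0
    rw [h0, norm_zero] at hX
    exact zero_ne_one hX
  have hX'ne : det2 z' (vmap (al p) w') ≠ 0 := by
    intro h0
    rw [h0, norm_zero] at hX'
    exact zero_ne_one hX'
  have hz'eq := eq_smul_lin hWW hX'ne
  set t := tco (vmap (al p) w) (vmap (al p) w') z with ht
  set t' := tco (vmap (al p) w) (vmap (al p) w') z' with ht'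
  have ht'lt : ‖t'‖ < 1 := by
    rw [ht']
    unfold tco
    rw [norm_div, hX', div_one]
    exact hdz'
  obtain ⟨hY₁, hs1, hs2, hs3⟩ := H₀ t' ht'lt _ rfl
  set y₁ := hlift (cmap (al p) c) (lin (vmap (al p) w) (vmap (al p) w') t') with hy₁
  have hY₁ne : det2 y₁ (vmap (al p) w₁') ≠ 0 := by
    intro h0
    rw [h0, norm_zero] at hY₁
    exact zero_ne_one hY₁
  have hy₁eq := eq_smul_lin hWW₁ hY₁ne
  set s := tco (vmap (al p) (hlift c w)) (vmap (al p) w₁') y₁ with hs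
  obtain ⟨hY, hy1, hy2, hy3⟩ := H₁ s hs1 _ rfl
  set y := (hlift (cmap (al p) c))^[m - 1] (lin (vmap (al p) (hlift c w)) (vmap (al p) w₁') s) with hy
  have hYne : det2 y (vmap (al p) w') ≠ 0 := by
    intro h0
    rw [h0, norm_zero] at hY
    exact zero_ne_one hY
  have hfm : (hlift (cmap (al p) c))^[m] z' = fun k =>
      ((det2 z' (vmap (al p) w')) ^ d * det2 y₁ (vmap (al p) w₁')) ^ (d ^ (m - 1)) * y k := by
    have h1 : (hlift (cmap (al p) c))^[m] z' = (hlift (cmap (al p) c))^[m - 1] (hlift (cmap (al p) c) z') := by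
      rw [← Function.iterate_succ_apply]
      congr 1
      omega
    have h2 : hlift (cmap (al p) c) z' = fun k => (det2 z' (vmap (al p) w')) ^ d * y₁ k := by
      rw [hy₁]
      conv_lhs => rw [hz'eq]
      rw [hlift_smul]
    have h3 : (fun k => (det2 z' (vmap (al p) w')) ^ d * y₁ k) = fun k =>
        ((det2 z' (vmap (al p) w')) ^ d * det2 y₁ (vmap (al p) w₁')) *
          lin (vmap (al p) (hlift c w)) (vmap (al p) w₁') s k := by
      funext k
      have := congrFun hy₁eq k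
      rw [mul_assoc, ← this]
    rw [h1, h2, h3, hlift_iter_smul]
  have hyz : det2 y z = 0 := by
    rw [hfm, det2_smul_left] at hprop
    refine (mul_eq_zero.1 hprop).resolve_left ?_
    exact pow_ne_zero _ (mul_ne_zero (pow_ne_zero _ hX'ne) hY₁ne)
  have hty : tco (vmap (al p) w) (vmap (al p) w') y = t := tco_eq hyz hYne hXne
  rw [hty] at hy1 hy2 hy3
  have hkey : ‖t - al p (tco w w' ((hlift c)^[m] w))‖ ≤ ‖t'‖ ^ 2 := hy2.trans hs2
  refine ⟨?_, ?_⟩
  · intro hcase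
    rcases hcase with h0 | h0
    · rw [h0, zero_sub, norm_neg, norm_al] at hkey
      rw [h0, norm_zero, max_eq_left (norm_nonneg _)]
      exact hkey
    · have h1 : ‖al p (tco w w' ((hlift c)^[m] w))‖ < ‖t‖ := by rw [norm_al]; exact h0
      have h2 : ‖t - al p (tco w w' ((hlift c)^[m] w))‖ = ‖t‖ := by
        have h3 := IsUltrametricDist.norm_add_eq_max_of_norm_ne_norm (x := t)
          (y := - al p (tco w w' ((hlift c)^[m] w))) (by rw [norm_neg]; exact h1.ne')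
        rw [← sub_eq_add_neg, norm_neg, max_eq_left h1.le] at h3
        exact h3
      rw [h2] at hkey
      rw [max_eq_right h0.le]
      exact hkey
  · intro hp
    have hsim := hy3 hp
    have hne1 : ‖t‖ = ‖s‖ ^ e₁ := by
      rw [hsim.norm_eq, norm_mul, norm_al, hγ₁, one_mul, norm_pow]
    have hsle : ‖t‖ ≤ ‖s‖ := by
      rw [hne1]
      exact pow_le_of_le_one (norm_nonneg _) hs1.le (by omega)
    have hsim2 := hs3 (lt_of_lt_of_le hp hsle)
    have hγne : al p γ₁ ≠ 0 := by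
      intro h0
      have : ‖al p γ₁‖ = 1 := by rw [norm_al]; exact hγ₁
      rw [h0, norm_zero] at this
      exact zero_ne_one this
    have h4 := (Sim.refl hγne).mul (hsim2.pow e₁)
    have h5 := hsim.trans h4
    have h6 : al p (γ₁ * γ₀ ^ e₁) * t' ^ (e₀ * e₁) = al p γ₁ * (al p γ₀ * t' ^ e₀) ^ e₁ := by
      rw [map_mul, map_pow, mul_pow, pow_mul]
      ring
    rw [h6]
    exact h5

end Pool.Agent.SNP
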