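import Pool.Agent.SNP.A.Sim
import Pool.Agent.Helper59.DML.Residue

/-!
# SNP-A-PATH: backward orbits whose residues are rational over a finite field are residually periodic

PROOF. Residue field `k` of `Ω = PadicAlgCl p`: `exists_residue` (`DML/Residue.lean`): `O`, `π : O →+* k`, `x ∈ O ↔ ‖x‖ ≤ 1`, `π x = 0 ↔ ‖x‖ < 1`. `hlift` commutes with `π` (`map_hlift_iter`); so congruent vectors (coordinates of norm `≤ 1`, differences of norm `< 1`) have congruent images under all iterates (`cong_iter`).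
(a) `per_of_path`: put `y n = f^(N-n)(z)`, `0 ≤ n ≤ N`. The residues of the coordinates of all `y n` are roots of `X^Q - X`, `Q ≥ 2`, at most `Q` elements of `k`; so among the `Q² + 1` vectors `y n, .., y (n+Q²)` two are congruent: `y i ≡ y j`, `n ≤ i < j ≤ n + Q²` (pigeonhole). `f^(j-i)(y j) = y i`, `y n = f^(i-n)(y i)`.
So `f^(j-i)(y n) = f^(j-i) f^(i-n) (y i) ≡ f^(i-n) f^(j-i) (y j) = f^(i-n)(y i) = y n`. Take `s = j - i`.
(b) `path_per`: `n = 0`: `y 0 = f^N(z) = λ w` with `‖λ‖ = 1` (both primitive, `det2 = 0`), `f^s(y 0) ≡ y 0`, `f^s(λ w) = λ^(d^s) f^s(w)`, so `‖det2 (f^s w) w‖ < 1`.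
(c) `path_ret`: let `m` be a period of `w` modulo `p` and `n = k m`, `n + Q² ≤ N`, `s` from (a): `f^s(y n) ≡ y n`, hence `f^(n s)(y n) ≡ y n` (iterate: `f^(s i)(y n) ≡ y n` for all `i`). `f^(n s)(y n) = f^(n (s-1))(f^n (y n)) = f^(n(s-1))(y 0)`, `y 0 = λ w`, and `f^(k m (s-1))(w)` is congruent to a multiple of `w`:
`‖det2 (f^(m i) w) w‖ < 1` for all `i` (induction: a primitive vector `v` with `‖det2 v w‖ < 1` is congruent to `μ w`, `‖μ‖ = 1`; then `f^m v ≡ μ^(d^m) f^m w`, and `‖det2 (f^m w) w‖ < 1`). So `‖det2 w (y n)‖ < 1`.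
-/

set_option autoImplicit false

namespace Pool.Agent.SNP

open Pool.Agent.Helper59.DML

private theorem exists_mul_of_det2 {k : Type*} [Field k] {v w : Fin 2 → k} (hw : w ≠ 0) (h : det2 v w = 0) :
    ∃ l : k, v = fun a => l * w a := by
  have h1 : v 0 * w 1 = v 1 * w 0 := sub_eq_zero.1 h
  by_cases h0 : w 0 = 0
  · have h2 : w 1 ≠ 0 := by
      intro h3
      apply hw
      funext a
      fin_cases a
      · exact h0
      · exact h3
    refine ⟨v 1 / w 1, ?_⟩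
    funext a
    fin_cases a
    · show v 0 = v 1 / w 1 * w 0
      rw [h0, mul_zero] at h1 ⊢
      exact (mul_eq_zero.1 h1).resolve_right h2
    · show v 1 = v 1 / w 1 * w 1
      rw [div_mul_cancel₀ _ h2]
  · refine ⟨v 0 / w 0, ?_⟩
    funext a
    fin_cases a
    · show v 0 = v 0 / w 0 * w 0
      rw [div_mul_cancel₀ _ h0]
    · show v 1 = v 0 / w 0 * w 1
      rw [div_mul_eq_mul_div, h1, mul_div_cancel_right₀ _ h0]

private theorem per_of_path {k : Type*} [Field k] (g : (Fin 2 → k) → (Fin 2 → k)) (z : Fin 2 → k) {Q N n : ℕ}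
    (hQ : 2 ≤ Q) (hres : ∀ i ≤ N, ∀ a, (g^[i] z a) ^ Q = g^[i] z a) (hn : n + Q ^ 2 ≤ N) :
    ∃ s, 1 ≤ s ∧ g^[s] (g^[N - n] z) = g^[N - n] z := by
  classical
  have hne : (Polynomial.X ^ Q - Polynomial.X : Polynomial k) ≠ 0 :=
    FiniteField.X_pow_card_sub_X_ne_zero k (by omega)
  set R : Finset k := (Polynomial.X ^ Q - Polynomial.X : Polynomial k).roots.toFinset with hR
  have hcard : R.card ≤ Q := by
    refine (Multiset.toFinset_card_le _).trans ?_
    refine (Polynomial.card_roots' _).trans ?_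
    rw [FiniteField.X_pow_card_sub_X_natDegree_eq k (by omega)]
  have hmem : ∀ i ≤ N, ∀ a, g^[i] z a ∈ R := by
    intro i hi a
    rw [hR, Multiset.mem_toFinset, Polynomial.mem_roots hne, Polynomial.IsRoot.def]
    simp only [Polynomial.eval_sub, Polynomial.eval_pow, Polynomial.eval_X]
    rw [hres i hi a, sub_self]
  have hlt : (R ×ˢ R).card < (Finset.Icc n (n + Q ^ 2)).card := by
    rw [Finset.card_product, Nat.card_Icc]
    have : R.card * R.card ≤ Q ^ 2 := by rw [pow_two]; exact Nat.mul_le_mul hcard hcard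
    omega
  obtain ⟨i, hi, j, hj, hij, he⟩ := Finset.exists_ne_map_eq_of_card_lt_of_maps_to hlt
    (f := fun i => (g^[N - i] z 0, g^[N - i] z 1)) (by
      intro i hi
      exact Finset.mem_product.2 ⟨hmem _ (Nat.sub_le N i) 0, hmem _ (Nat.sub_le N i) 1⟩)
  have key : ∀ i j : ℕ, n ≤ i → i < j → j ≤ n + Q ^ 2 → g^[N - i] z = g^[N - j] z →
      ∃ s, 1 ≤ s ∧ g^[s] (g^[N - n] z) = g^[N - n] z := by
    intro i j h1 h2 h3 h4
    refine ⟨j - i, by omega, ?_⟩
    have e1 : g^[N - n] z = g^[i - n] (g^[N - i] z) := by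
      rw [← Function.iterate_add_apply]
      congr 2
      omega
    have e2 : g^[j - i] (g^[N - j] z) = g^[N - i] z := by
      rw [← Function.iterate_add_apply]
      congr 2
      omega
    rw [e1, ← Function.iterate_add_apply, Nat.add_comm (j - i) (i - n), Function.iterate_add_apply]
    congr 1
    nth_rewrite 1 [h4]
    exact e2
  have hv : g^[N - i] z = g^[N - j] z := by
    funext a
    fin_cases a
    · exact congrArg Prod.fst he
    · exact congrArg Prod.snd he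
  rw [Finset.mem_Icc] at hi hj
  rcases lt_or_gt_of_ne hij with h | h
  · exact key i j hi.1 h hj.2 hv
  · exact key j i hj.1 h hi.2 hv.symm

private theorem field_per {k : Type*} [Field k] {d : ℕ} (c : Fin 2 → Fin (d + 1) → k) {z w : Fin 2 → k}
    {Q N : ℕ} (hQ : 2 ≤ Q) (hw : w ≠ 0) (hy : (hlift c)^[N] z ≠ 0) (hz : det2 ((hlift c)^[N] z) w = 0)
    (hres : ∀ i ≤ N, ∀ a, ((hlift c)^[i] z a) ^ Q = (hlift c)^[i] z a) (hN : Q ^ 2 ≤ N) :
    ∃ m, 1 ≤ m ∧ det2 ((hlift c)^[m] w) w = 0 := by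
  obtain ⟨s, hs, h⟩ := per_of_path (hlift c) z (n := 0) hQ hres (by omega)
  rw [Nat.sub_zero] at h
  obtain ⟨l, hl⟩ := exists_mul_of_det2 hw hz
  have hl0 : l ≠ 0 := by
    intro h0
    apply hy
    rw [hl, h0]
    funext a
    simp
  refine ⟨s, hs, ?_⟩
  rw [hl, hlift_iter_smul] at h
  have h0 := congrFun h 0
  have h1 := congrFun h 1
  have hp : l ^ d ^ s ≠ 0 := pow_ne_zero _ hl0
  have e : l ^ d ^ s * det2 ((hlift c)^[s] w) w = 0 := by
    unfold det2
    linear_combination w 1 * h0 - w 0 * h1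
  exact (mul_eq_zero.1 e).resolve_left hp

private theorem field_ret {k : Type*} [Field k] {d : ℕ} (c : Fin 2 → Fin (d + 1) → k) {z w : Fin 2 → k}
    {Q N : ℕ} (hQ : 2 ≤ Q) (hw : w ≠ 0) (hz : det2 ((hlift c)^[N] z) w = 0)
    (hres : ∀ i ≤ N, ∀ a, ((hlift c)^[i] z a) ^ Q = (hlift c)^[i] z a)
    {m : ℕ} (hper : det2 ((hlift c)^[m] w) w = 0) {r : ℕ} (hr : r * m + Q ^ 2 ≤ N) :
    det2 w ((hlift c)^[N - r * m] z) = 0 := by
  obtain ⟨s, hs, h⟩ := per_of_path (hlift c) z (n := r * m) hQ hres hr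
  obtain ⟨l, hl⟩ := exists_mul_of_det2 hw hz
  obtain ⟨l', hl'⟩ := exists_mul_of_det2 hw hper
  -- iterates of the period
  have hs2 : ∀ i, (hlift c)^[s * i] ((hlift c)^[N - r * m] z) = (hlift c)^[N - r * m] z := by
    intro i
    induction i with
    | zero => rfl
    | succ i ih => rw [Nat.mul_succ, Function.iterate_add_apply, h, ih]
  -- multiples of `w` under `f^(m i)`
  have hm2 : ∀ i, ∀ μ : k, ∃ ν : k, (hlift c)^[m * i] (fun a => μ * w a) = fun a => ν * w a := by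
    intro i
    induction i with
    | zero => exact fun μ => ⟨μ, rfl⟩
    | succ i ih =>
      intro μ
      have e : (hlift c)^[m] (fun a => μ * w a) = fun a => (μ ^ d ^ m * l') * w a := by
        rw [hlift_iter_smul, hl']
        funext a
        simp only
        ring
      rw [Nat.mul_succ, Function.iterate_add_apply, e]
      exact ih _
  have e5 : s * (r * m) + (N - r * m) = m * (r * (s - 1)) + N := by
    obtain ⟨t, rfl⟩ : ∃ t, s = t + 1 := ⟨s - 1, by omega⟩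
    have e2 : m * (r * (t + 1 - 1)) = t * (r * m) := by
      rw [Nat.add_sub_cancel]
      ring
    have e3 : (t + 1) * (r * m) = t * (r * m) + r * m := by ring
    rw [e2, e3]
    omega
  have e1 : (hlift c)^[N - r * m] z = (hlift c)^[m * (r * (s - 1))] ((hlift c)^[N] z) := by
    calc (hlift c)^[N - r * m] z = (hlift c)^[s * (r * m)] ((hlift c)^[N - r * m] z) := (hs2 _).symm
      _ = (hlift c)^[s * (r * m) + (N - r * m)] z := (Function.iterate_add_apply _ _ _ _).symm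
      _ = (hlift c)^[m * (r * (s - 1)) + N] z := by rw [e5]
      _ = (hlift c)^[m * (r * (s - 1))] ((hlift c)^[N] z) := Function.iterate_add_apply _ _ _ _
  obtain ⟨ν, hν⟩ := hm2 (r * (s - 1)) l
  rw [e1, hl, hν]
  unfold det2
  ring

section bridge
variable {p : ℕ} [Fact p.Prime] {d : ℕ}

/-- all data over the residue field. -/
private theorem bridge {c : Fin 2 → Fin (d + 1) → ℚ_[p]} (hg : GoodRed (cmap (al p) c))
    {w : Fin 2 → ℚ_[p]} (hw : ‖w‖ = 1) {Q N : ℕ} {z : Fin 2 → PadicAlgCl p} (hz : ‖z‖ = 1)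
    (hzN : det2 ((hlift (cmap (al p) c))^[N] z) (vmap (al p) w) = 0)
    (hres : ∀ n ≤ N, ∀ k, ‖((hlift (cmap (al p) c))^[n] z k) ^ Q - (hlift (cmap (al p) c))^[n] z k‖ < 1) :
    ∃ (k : Type) (_ : Field k) (c' : Fin 2 → Fin (d + 1) → k) (z' w' : Fin 2 → k), w' ≠ 0 ∧
      (hlift c')^[N] z' ≠ 0 ∧ det2 ((hlift c')^[N] z') w' = 0 ∧
      (∀ i ≤ N, ∀ a, ((hlift c')^[i] z' a) ^ Q = (hlift c')^[i] z' a) ∧
      (∀ m, det2 ((hlift c')^[m] w') w' = 0 ↔ ‖det2 ((hlift c)^[m] w) w‖ < 1) ∧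
      (∀ m, det2 w' ((hlift c')^[m] z') = 0 ↔
        ‖det2 (vmap (al p) w) ((hlift (cmap (al p) c))^[m] z)‖ < 1) := by
  obtain ⟨O, k, hk, π, hO, hπ⟩ := exists_residue (PadicAlgCl p)
  have hwn : ∀ a, ‖vmap (al p) w a‖ ≤ 1 := by
    intro a
    show ‖al p (w a)‖ ≤ 1
    rw [norm_al]
    exact (norm_le_pi_norm w a).trans hw.le
  set cO : Fin 2 → Fin (d + 1) → O := fun a j => ⟨cmap (al p) c a j, (hO _).2 (hg.1 a j)⟩ with hcO
  set zO : Fin 2 → O := fun a => ⟨z a, (hO _).2 ((norm_le_pi_norm z a).trans hz.le)⟩ with hzO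
  set wO : Fin 2 → O := fun a => ⟨vmap (al p) w a, (hO _).2 (hwn a)⟩ with hwO
  have ec : cmap O.subtype cO = cmap (al p) c := rfl
  have ez : vmap O.subtype zO = z := rfl
  have ew : vmap O.subtype wO = vmap (al p) w := rfl
  have hsz : ∀ n, vmap O.subtype ((hlift cO)^[n] zO) = (hlift (cmap (al p) c))^[n] z := by
    intro n
    rw [vmap_hlift_iter, ec, ez]
  have hsw : ∀ n, vmap O.subtype ((hlift cO)^[n] wO) = (hlift (cmap (al p) c))^[n] (vmap (al p) w) := by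
    intro n
    rw [vmap_hlift_iter, ec, ew]
  have hkz : ∀ n, (hlift (cmap π cO))^[n] (vmap π zO) = vmap π ((hlift cO)^[n] zO) :=
    fun n => (vmap_hlift_iter π cO zO n).symm
  have hkw : ∀ n, (hlift (cmap π cO))^[n] (vmap π wO) = vmap π ((hlift cO)^[n] wO) :=
    fun n => (vmap_hlift_iter π cO wO n).symm
  have hdet : ∀ x y : Fin 2 → O, det2 (vmap π x) (vmap π y) = 0 ↔
      ‖det2 (vmap O.subtype x) (vmap O.subtype y)‖ < 1 := by
    intro x y
    rw [← map_det2, hπ, ← map_det2]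
    rfl
  have hne : ∀ x : Fin 2 → O, ‖vmap O.subtype x‖ = 1 → vmap π x ≠ 0 := by
    intro x hx h0
    have h1 : ∀ a, ‖vmap O.subtype x a‖ < 1 := fun a => (hπ (x a)).1 (congrFun h0 a)
    have h2 := (pi_norm_lt_iff one_pos).2 h1
    linarith
  have hiter : ∀ n, ‖(hlift (cmap (al p) c))^[n] z‖ = 1 := by
    intro n
    induction n with
    | zero => exact hz
    | succ n ih => rw [Function.iterate_succ_apply']; exact hg.2 _ ih
  have hwnorm : ‖vmap (al p) w‖ = 1 := by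
    refine le_antisymm ((pi_norm_le_iff_of_nonneg zero_le_one).2 hwn) ?_
    rw [← hw]
    refine (pi_norm_le_iff_of_nonneg (norm_nonneg _)).2 fun a => ?_
    rw [← norm_al]
    exact norm_le_pi_norm (vmap (al p) w) a
  refine ⟨k, hk, cmap π cO, vmap π zO, vmap π wO, ?_, ?_, ?_, ?_, ?_, ?_⟩
  · exact hne _ (by rw [ew]; exact hwnorm)
  · rw [hkz]
    exact hne _ (by rw [hsz]; exact hiter N)
  · rw [hkz, hdet, hsz, ew, hzN, norm_zero]
    exact one_pos
  · intro i hi a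
    rw [hkz]
    show π ((hlift cO)^[i] zO a) ^ Q = π ((hlift cO)^[i] zO a)
    rw [← sub_eq_zero, ← map_pow, ← map_sub, hπ]
    have h1 := hres i hi a
    rw [← hsz] at h1
    exact h1
  · intro m
    rw [hkw, hdet, hsw, ew, ← vmap_hlift_iter, ← map_det2, norm_al]
  · intro m
    rw [hkz, hdet, hsz, ew]

end bridge

theorem path_per {p : ℕ} [Fact p.Prime] {d : ℕ} {c : Fin 2 → Fin (d + 1) → ℚ_[p]} (hg : GoodRed (cmap (al p) c))
    {w : Fin 2 → ℚ_[p]} (hw : ‖w‖ = 1) {Q N : ℕ} (hQ : 2 ≤ Q) {z : Fin 2 → PadicAlgCl p} (hz : ‖z‖ = 1)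
    (hzN : det2 ((hlift (cmap (al p) c))^[N] z) (vmap (al p) w) = 0)
    (hres : ∀ n ≤ N, ∀ k, ‖((hlift (cmap (al p) c))^[n] z k) ^ Q - (hlift (cmap (al p) c))^[n] z k‖ < 1)
    (hN : Q ^ 2 ≤ N) : ∃ m, 1 ≤ m ∧ ‖det2 ((hlift c)^[m] w) w‖ < 1 := by
  obtain ⟨k, hk, c', z', w', h1, h2, h3, h4, h5, -⟩ := bridge hg hw hz hzN hres
  obtain ⟨m, hm, h⟩ := field_per c' hQ h1 h2 h3 h4 hN
  exact ⟨m, hm, (h5 m).1 h⟩

theorem path_ret {p : ℕ} [Fact p.Prime] {d : ℕ} {c : Fin 2 → Fin (d + 1) → ℚ_[p]} (hg : GoodRed (cmap (al p) c))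
    {w : Fin 2 → ℚ_[p]} (hw : ‖w‖ = 1) {Q N : ℕ} (hQ : 2 ≤ Q) {z : Fin 2 → PadicAlgCl p} (hz : ‖z‖ = 1)
    (hzN : det2 ((hlift (cmap (al p) c))^[N] z) (vmap (al p) w) = 0)
    (hres : ∀ n ≤ N, ∀ k, ‖((hlift (cmap (al p) c))^[n] z k) ^ Q - (hlift (cmap (al p) c))^[n] z k‖ < 1)
    {m : ℕ} (hm : 1 ≤ m) (hper : ‖det2 ((hlift c)^[m] w) w‖ < 1) {k : ℕ} (hk : k * m + Q ^ 2 ≤ N) :
    ‖det2 (vmap (al p) w) ((hlift (cmap (al p) c))^[N - k * m] z)‖ < 1 := by
  obtain ⟨F, hF, c', z', w', h1, h2, h3, h4, h5, h6⟩ := bridge hg hw hz hzN hres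
  exact (h6 (N - k * m)).1 (field_ret c' hQ h1 h3 h4 ((h5 m).2 hper) hk)

end Pool.Agent.SNP
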