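import Pool.Agent.SNP.A.Growth
import Pool.Agent.SNP.A.Path

/-!
# SNP-A-FIX: data attached to a backward orbit with rational residues ending in a captured critical point

PROOF of `fixed_data`. `K = k₀ + s`, `y k = f^(N - k m)(z)` for `k ≤ K` (`k m + Q² ≤ N`), `‖y k‖ = 1` (good reduction), `‖det2 w (y k)‖ < 1` (`path_ret`), `f^m (y (k+1)) = y k` (`Function.iterate_add_apply`), so `det2 (f^m (y (k+1))) (y k) = 0`. `t k = tco w w' (y k)`: `t 0 = 0` since
`det2 (y 0) w = 0`; `‖t k‖ < 1`: the denominator `det2 (y k) w'` has norm one because `y k = (det2 (y k) w') w + (det2 w (y k)) w'` is primitive. Apply `growth` with `h1, h2` from `hcapt`.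
PROOF of `normalise`. Divide `z` by its coordinate of larger norm: `z₁` with `‖z₁‖ = 1` and one coordinate `1`. `det2 (τ z) z = 0` gives `det2 (τ z₁) z₁ = 0` and, since one coordinate is `1`, `τ (z₁ k) = z₁ k`. The coordinates of `f^n z₁` are also fixed by `τ` (`vmap_hlift_iter` for the ring homomorphism `τ`, the coefficients are in `ℚ_p`), norms `≤ 1`.
-/

set_option autoImplicit false

namespace Pool.Agent.SNP

open Pool.Agent.Helper59.DML

/-- the conclusion of `capt`. -/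
def Capt {p : ℕ} [Fact p.Prime] {d : ℕ} (c : Fin 2 → Fin (d + 1) → ℚ_[p]) (w w' : Fin 2 → ℚ_[p]) (m : ℕ) (a₀ : ℝ) (e : ℕ) (γ : ℚ_[p]) : Prop :=
  ∀ z z' : Fin 2 → PadicAlgCl p, ‖z‖ = 1 → ‖z'‖ = 1 →
    ‖det2 (vmap (al p) w) z‖ < 1 → ‖det2 (vmap (al p) w) z'‖ < 1 →
    det2 ((hlift (cmap (al p) c))^[m] z') z = 0 →
    (tco (vmap (al p) w) (vmap (al p) w') z = 0 ∨ a₀ < ‖tco (vmap (al p) w) (vmap (al p) w') z‖ →
      max a₀ ‖tco (vmap (al p) w) (vmap (al p) w') z‖ ≤ ‖tco (vmap (al p) w) (vmap (al p) w') z'‖ ^ 2) ∧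
    ((p : ℝ)⁻¹ < ‖tco (vmap (al p) w) (vmap (al p) w') z‖ →
      Sim (tco (vmap (al p) w) (vmap (al p) w') z) (al p γ * tco (vmap (al p) w) (vmap (al p) w') z' ^ e))

private theorem norm_iter_one {p : ℕ} [Fact p.Prime] {d : ℕ} {C : Fin 2 → Fin (d + 1) → PadicAlgCl p}
    (hg : GoodRed C) {z : Fin 2 → PadicAlgCl p} (hz : ‖z‖ = 1) (n : ℕ) : ‖(hlift C)^[n] z‖ = 1 := by
  induction n with
  | zero => simpa using hz
  | succ n ih =>
    rw [Function.iterate_succ_apply']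
    exact hg.2 _ ih

private theorem norm_vmap_le {p : ℕ} [Fact p.Prime] {w : Fin 2 → ℚ_[p]} (hw : ‖w‖ ≤ 1) :
    ‖vmap (al p) w‖ ≤ 1 := by
  rw [pi_norm_le_iff_of_nonneg zero_le_one]
  intro k
  have h : ‖vmap (al p) w k‖ = ‖w k‖ := norm_al (w k)
  rw [h]
  exact (norm_le_pi_norm w k).trans hw

private theorem norm_den {p : ℕ} [Fact p.Prime] {W W' y : Fin 2 → PadicAlgCl p} (hW : ‖W‖ ≤ 1) (hW' : ‖W'‖ ≤ 1)
    (hd : det2 W W' = 1) (hy : ‖y‖ = 1) (h : ‖det2 W y‖ < 1) : ‖det2 y W'‖ = 1 := by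
  have hle : ‖det2 y W'‖ ≤ 1 := by
    refine norm_det2_le.trans ?_
    rw [hy, one_mul]
    exact hW'
  by_contra hne
  have hlt : ‖det2 y W'‖ < 1 := lt_of_le_of_ne hle hne
  have hk : ∀ k, ‖y k‖ < 1 := by
    intro k
    have e : y k = det2 y W' * W k + det2 W y * W' k := by
      have h1 : W 0 * W' 1 - W 1 * W' 0 = 1 := hd
      fin_cases k
      · show y 0 = (y 0 * W' 1 - y 1 * W' 0) * W 0 + (W 0 * y 1 - W 1 * y 0) * W' 0
        linear_combination (-(y 0)) * h1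
      · show y 1 = (y 0 * W' 1 - y 1 * W' 0) * W 1 + (W 0 * y 1 - W 1 * y 0) * W' 1
        linear_combination (-(y 1)) * h1
    rw [e]
    refine lt_of_le_of_lt (IsUltrametricDist.norm_add_le_max _ _) (max_lt ?_ ?_)
    · rw [norm_mul]
      have h2 : ‖W k‖ ≤ 1 := (norm_le_pi_norm W k).trans hW
      calc ‖det2 y W'‖ * ‖W k‖ ≤ ‖det2 y W'‖ * 1 := mul_le_mul_of_nonneg_left h2 (norm_nonneg _)
        _ < 1 := by rw [mul_one]; exact hlt
    · rw [norm_mul]
      have h2 : ‖W' k‖ ≤ 1 := (norm_le_pi_norm W' k).trans hW'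
      calc ‖det2 W y‖ * ‖W' k‖ ≤ ‖det2 W y‖ * 1 := mul_le_mul_of_nonneg_left h2 (norm_nonneg _)
        _ < 1 := by rw [mul_one]; exact h
  have h3 : ‖y‖ < 1 := by
    rw [pi_norm_lt_iff zero_lt_one]
    exact hk
  rw [hy] at h3
  exact lt_irrefl _ h3

private theorem det2_self' {R : Type*} [CommRing R] (v : Fin 2 → R) : det2 v v = 0 := by
  unfold det2
  ring

private theorem det2_zero_symm {R : Type*} [CommRing R] {v w : Fin 2 → R} (h : det2 v w = 0) : det2 w v = 0 := by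
  unfold det2 at h ⊢
  linear_combination -h

theorem fixed_data {p : ℕ} [Fact p.Prime] {d : ℕ} {c : Fin 2 → Fin (d + 1) → ℚ_[p]} (hg : GoodRed (cmap (al p) c))
    {w w' : Fin 2 → ℚ_[p]} (hw : ‖w‖ = 1) (hw' : ‖w'‖ ≤ 1) (hww : det2 w w' = 1) {m : ℕ} (hm : 1 ≤ m)
    (hper : ‖det2 ((hlift c)^[m] w) w‖ < 1) {a₀ : ℝ} (ha₀ : 0 < a₀) {e : ℕ} {γ : ℚ_[p]} (hγ : ‖γ‖ = 1)
    (hcapt : Capt c w w' m a₀ e γ) {k₀ : ℕ} (hk₀ : 1 ≤ k₀) (hk₀' : ((p : ℝ)⁻¹) ^ (2 ^ k₀) < a₀) {Q N s : ℕ} (hQ : 2 ≤ Q)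
    (hN : (k₀ + s) * m + Q ^ 2 ≤ N) {z : Fin 2 → PadicAlgCl p} (hz : ‖z‖ = 1)
    (hzN : det2 ((hlift (cmap (al p) c))^[N] z) (vmap (al p) w) = 0)
    (hres : ∀ n ≤ N, ∀ k, ‖((hlift (cmap (al p) c))^[n] z k) ^ Q - (hlift (cmap (al p) c))^[n] z k‖ < 1) :
    (p : ℝ)⁻¹ < ‖tco (vmap (al p) w) (vmap (al p) w') ((hlift (cmap (al p) c))^[N - k₀ * m] z)‖ ∧
      ‖tco (vmap (al p) w) (vmap (al p) w') ((hlift (cmap (al p) c))^[N - k₀ * m] z)‖ < 1 ∧
      Sim (tco (vmap (al p) w) (vmap (al p) w') ((hlift (cmap (al p) c))^[N - k₀ * m] z))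
        (al p γ ^ (∑ i ∈ Finset.range s, e ^ i) *
          tco (vmap (al p) w) (vmap (al p) w') ((hlift (cmap (al p) c))^[N - (k₀ + s) * m] z) ^ (e ^ s)) := by
  have hWn : ‖vmap (al p) w‖ ≤ 1 := norm_vmap_le hw.le
  have hWn' : ‖vmap (al p) w'‖ ≤ 1 := norm_vmap_le hw'
  have hWW : det2 (vmap (al p) w) (vmap (al p) w') = 1 := by
    rw [← map_det2, hww, map_one]
  -- all indices up to `K` are admissible
  have hkm : ∀ k ≤ k₀ + s, k * m + Q ^ 2 ≤ N := by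
    intro k hk
    have : k * m ≤ (k₀ + s) * m := Nat.mul_le_mul_right m hk
    omega
  have hsmall : ∀ k ≤ k₀ + s,
      ‖det2 (vmap (al p) w) ((hlift (cmap (al p) c))^[N - k * m] z)‖ < 1 := fun k hk =>
    path_ret hg hw hQ hz hzN hres hm hper (hkm k hk)
  have hone : ∀ n, ‖(hlift (cmap (al p) c))^[n] z‖ = 1 := norm_iter_one hg hz
  have ht1 : ∀ k ≤ k₀ + s,
      ‖tco (vmap (al p) w) (vmap (al p) w') ((hlift (cmap (al p) c))^[N - k * m] z)‖ < 1 := by
    intro k hk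
    unfold tco
    rw [norm_div, norm_den hWn hWn' hWW (hone _) (hsmall k hk), div_one]
    exact hsmall k hk
  have ht0 : tco (vmap (al p) w) (vmap (al p) w') ((hlift (cmap (al p) c))^[N - 0 * m] z) = 0 := by
    unfold tco
    rw [Nat.zero_mul, Nat.sub_zero, det2_zero_symm hzN, zero_div]
  have hstep : ∀ k < k₀ + s, det2 ((hlift (cmap (al p) c))^[m]
      ((hlift (cmap (al p) c))^[N - (k + 1) * m] z)) ((hlift (cmap (al p) c))^[N - k * m] z) = 0 := by
    intro k hk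
    have h1 := hkm (k + 1) hk
    have h2 : m + (N - (k + 1) * m) = N - k * m := by
      rw [Nat.succ_mul] at h1 ⊢
      omega
    rw [← Function.iterate_add_apply, h2]
    exact det2_self' _
  have hγ' : ‖al p γ‖ = 1 := by rw [norm_al, hγ]
  have hG := growth (p := p) ha₀ (e := e) hγ'
    (t := fun k => tco (vmap (al p) w) (vmap (al p) w') ((hlift (cmap (al p) c))^[N - k * m] z))
    (K := k₀ + s) ht0 ht1
    (fun k hk => (hcapt _ _ (hone _) (hone _) (hsmall k hk.le) (hsmall (k + 1) hk) (hstep k hk)).1)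
    (fun k hk => (hcapt _ _ (hone _) (hone _) (hsmall k hk.le) (hsmall (k + 1) hk) (hstep k hk)).2)
    hk₀ hk₀' (le_refl (k₀ + s))
  exact ⟨hG.1, ht1 k₀ (Nat.le_add_right _ _), hG.2⟩

theorem normalise {p : ℕ} [Fact p.Prime] {d : ℕ} {c : Fin 2 → Fin (d + 1) → ℚ_[p]} (hg : GoodRed (cmap (al p) c))
    {w : Fin 2 → ℚ_[p]} {Q N : ℕ} {τ : PadicAlgCl p ≃ₐ[ℚ_[p]] PadicAlgCl p}
    (hτ : ∀ x, ‖x‖ ≤ 1 → ‖τ x - x ^ Q‖ < 1) {z : Fin 2 → PadicAlgCl p} (hz : z ≠ 0)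
    (hzN : det2 ((hlift (cmap (al p) c))^[N] z) (vmap (al p) w) = 0) (hfix : det2 (fun k => τ (z k)) z = 0) :
    ∃ z₁ : Fin 2 → PadicAlgCl p, ‖z₁‖ = 1 ∧ (z₁ 0 = 1 ∨ z₁ 1 = 1) ∧
      det2 ((hlift (cmap (al p) c))^[N] z₁) (vmap (al p) w) = 0 ∧
      (∀ n k, τ ((hlift (cmap (al p) c))^[n] z₁ k) = (hlift (cmap (al p) c))^[n] z₁ k) ∧
      ∀ n k, ‖((hlift (cmap (al p) c))^[n] z₁ k) ^ Q - (hlift (cmap (al p) c))^[n] z₁ k‖ < 1 := by
  -- the coordinate of larger norm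
  obtain ⟨k0, hk0⟩ : ∃ k0, ∀ k, ‖z k‖ ≤ ‖z k0‖ := by
    rcases le_total ‖z 0‖ ‖z 1‖ with h | h
    · refine ⟨1, fun k => ?_⟩
      fin_cases k
      · exact h
      · exact le_refl _
    · refine ⟨0, fun k => ?_⟩
      fin_cases k
      · exact le_refl _
      · exact h
  have hk0ne : z k0 ≠ 0 := by
    intro h0
    apply hz
    funext k
    have := hk0 k
    rw [h0, norm_zero] at this
    exact norm_le_zero_iff.1 this
  have hnpos : 0 < ‖z k0‖ := norm_pos_iff.2 hk0ne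
  set l : PadicAlgCl p := (z k0)⁻¹ with hl
  have hlne : l ≠ 0 := inv_ne_zero hk0ne
  have h1k0 : l * z k0 = 1 := inv_mul_cancel₀ hk0ne
  have hn1 : ‖(fun k => l * z k : Fin 2 → PadicAlgCl p)‖ = 1 := by
    refine le_antisymm ?_ ?_
    · rw [pi_norm_le_iff_of_nonneg zero_le_one]
      intro k
      show ‖l * z k‖ ≤ 1
      rw [norm_mul, hl, norm_inv, inv_mul_le_iff₀ hnpos, mul_one]
      exact hk0 k
    · have h := norm_le_pi_norm (fun k => l * z k : Fin 2 → PadicAlgCl p) k0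
      have h' : ‖l * z k0‖ ≤ ‖(fun k => l * z k : Fin 2 → PadicAlgCl p)‖ := h
      rw [h1k0, norm_one] at h'
      exact h'
  have hor : l * z 0 = 1 ∨ l * z 1 = 1 := by
    fin_cases k0
    · exact Or.inl h1k0
    · exact Or.inr h1k0
  have hfix0 : τ (z 0) * z 1 - τ (z 1) * z 0 = 0 := hfix
  have hτk0 : τ (z k0) ≠ 0 := by
    intro h
    apply hk0ne
    exact (map_eq_zero_iff τ τ.injective).1 h
  have hcoord : ∀ k, τ (l * z k) = l * z k := by
    intro k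
    rw [map_mul, hl, map_inv₀]
    have h2 : τ (z k) * z k0 = z k * τ (z k0) := by
      fin_cases k0
      · fin_cases k
        · show τ (z 0) * z 0 = z 0 * τ (z 0)
          ring
        · show τ (z 1) * z 0 = z 1 * τ (z 0)
          linear_combination -hfix0
      · fin_cases k
        · show τ (z 0) * z 1 = z 0 * τ (z 1)
          linear_combination hfix0
        · show τ (z 1) * z 1 = z 1 * τ (z 1)
          ring
    field_simp
    linear_combination h2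
  have hdetN : det2 ((hlift (cmap (al p) c))^[N] (fun k => l * z k)) (vmap (al p) w) = 0 := by
    rw [hlift_iter_smul]
    have h3 : det2 (fun k => l ^ d ^ N * (hlift (cmap (al p) c))^[N] z k) (vmap (al p) w) =
        l ^ d ^ N * det2 ((hlift (cmap (al p) c))^[N] z) (vmap (al p) w) := by
      unfold det2
      ring
    rw [h3, hzN, mul_zero]
  have hiter : ∀ n k, τ ((hlift (cmap (al p) c))^[n] (fun k => l * z k) k) =
      (hlift (cmap (al p) c))^[n] (fun k => l * z k) k := by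
    intro n k
    have h4 := vmap_hlift_iter (τ : PadicAlgCl p →+* PadicAlgCl p) (cmap (al p) c) (fun k => l * z k) n
    have h5 : cmap (τ : PadicAlgCl p →+* PadicAlgCl p) (cmap (al p) c) = cmap (al p) c := by
      funext i j
      exact τ.commutes (c i j)
    have h6 : vmap (τ : PadicAlgCl p →+* PadicAlgCl p) (fun k => l * z k) = fun k => l * z k := by
      funext i
      exact hcoord i
    rw [h5, h6] at h4
    exact congrFun h4 k
  refine ⟨fun k => l * z k, hn1, hor, hdetN, hiter, ?_⟩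
  intro n k
  have h7 : ‖(hlift (cmap (al p) c))^[n] (fun k => l * z k) k‖ ≤ 1 := by
    refine (norm_le_pi_norm _ k).trans ?_
    rw [norm_iter_one hg hn1 n]
  have h8 := hτ _ h7
  rw [hiter n k, norm_sub_rev] at h8
  exact h8

end Pool.Agent.SNP
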