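import Pool.Agent.SNP.A.Root

/-!
# SNP-A-NOTWO: two of the automorphisms `τ_b` cannot fix ends through the same vertex

PROOF. `Q = p^k`, `e^s = ℓ^s g` (`g = (e/ℓ)^s`), `w₁ = w^(M/ℓ^s)`, `ζ = z^(M/ℓ^s)`: `w₁^(ℓ^s) = p`, `ζ` is a primitive `ℓ^s`-th root of unity (`IsPrimitiveRoot.pow`), `τ_b w₁ = ζ^b w₁`. `‖T‖^(e^s B) = ‖t‖^B`, so `(‖T‖^(g B))^(ℓ^s) p^A = 1` and `(‖w₁‖^A)^(ℓ^s) p^A = 1`, hence
`‖T^(gB)‖ = ‖w₁^A‖` (nonnegative reals with equal `ℓ^s`-th powers). `ε = T^(gB) / w₁^A`, `‖ε‖ = 1`. `τ_b ε = T^(gB) / (ζ^(bA) w₁^A)`, so `τ_b ε · ζ^(bA) = ε`, and `‖τ_b ε - ε^Q‖ < 1`, so `‖ε^(Q-1) ζ^(bA) - 1‖ < 1`. In the same way `ε' = T'^(gB) / w₁^A`, `‖ε'^(Q-1) ζ^(b'A) - 1‖ < 1`.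
`(ε'/ε)^(ℓ^s) = ((T'/T)^(e^s))^B` is congruent to `1` (`h1`, `Sim.div`, `Sim.pow`), and `ℓ^s ∣ M ∣ Q - 1`, so `(ε'/ε)^(Q-1) ≡ 1`. Dividing: `‖ζ^((b'-b)A) - 1‖ < 1`, so `ζ^((b'-b)A) = 1` by `root_inj` (with `ℓ^s`, prime to `p`), so `ℓ^s ∣ (b'-b) A`, but `0 < (b'-b) A < ℓ^s`.
(`≡` is `Sim` for units; use `Sim.mul`, `Sim.div`, `Sim.pow`, `sim_of_norm`, `Sim.unit`.)
-/

set_option autoImplicit false

namespace Pool.Agent.SNP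

open Pool.Agent.Helper59.DML

/-- one automorphism: the unit `ε = T ^ (g B) / w₁ ^ A` satisfies `ε ^ (Q - 1) ζ ^ (b A) ≡ 1` -/
private theorem no_two_aux {p : ℕ} [Fact p.Prime] {Q1 N g A B b : ℕ} {w1 ζ T : PadicAlgCl p}
    (hN : N ≠ 0) (hw1 : w1 ^ N = p) (hζ : ‖ζ‖ = 1)
    {τ : PadicAlgCl p ≃ₐ[ℚ_[p]] PadicAlgCl p} (hτw : τ w1 = ζ ^ b * w1)
    (hτ : ∀ x, ‖x‖ ≤ 1 → ‖τ x - x ^ (Q1 + 1)‖ < 1)
    (hT : (‖T‖ ^ (g * B)) ^ N * (p : ℝ) ^ A = 1) (hfix : τ T = T) :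
    ‖T ^ (g * B) / w1 ^ A‖ = 1 ∧
      Sim ((T ^ (g * B) / w1 ^ A) ^ Q1 * ζ ^ (b * A)) (1 : PadicAlgCl p) := by
  have hp0 : (p : PadicAlgCl p) ≠ 0 := by
    have h := norm_p (p := p)
    intro h0
    rw [h0, norm_zero] at h
    have hp : (0 : ℝ) < p := by exact_mod_cast (Fact.out : p.Prime).pos
    exact absurd h (inv_pos.mpr hp).ne
  have hw0 : w1 ≠ 0 := by
    intro h0
    rw [h0, zero_pow hN] at hw1
    exact hp0 hw1.symm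
  have hwA : w1 ^ A ≠ 0 := pow_ne_zero _ hw0
  have hpR : (0 : ℝ) < p := by exact_mod_cast (Fact.out : p.Prime).pos
  have hwn : (‖w1‖ ^ A) ^ N * (p : ℝ) ^ A = 1 := by
    have h1 : ‖w1‖ ^ N = (p : ℝ)⁻¹ := by rw [← norm_pow, hw1, norm_p]
    rw [← pow_mul, mul_comm A N, pow_mul, h1, ← mul_pow, inv_mul_cancel₀ hpR.ne', one_pow]
  have hnorm : ‖T‖ ^ (g * B) = ‖w1‖ ^ A := by
    have h1 : (‖T‖ ^ (g * B)) ^ N = (‖w1‖ ^ A) ^ N := by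
      have h2 : (p : ℝ) ^ A ≠ 0 := pow_ne_zero _ hpR.ne'
      exact mul_right_cancel₀ h2 (hT.trans hwn.symm)
    exact (pow_left_inj₀ (by positivity) (by positivity) hN).mp h1
  have hε : ‖T ^ (g * B) / w1 ^ A‖ = 1 := by
    rw [norm_div, norm_pow, norm_pow, hnorm]
    exact div_self (pow_ne_zero _ (norm_ne_zero_iff.mpr hw0))
  refine ⟨hε, ?_⟩
  obtain ⟨ε, hεd⟩ : ∃ ε, ε = T ^ (g * B) / w1 ^ A := ⟨_, rfl⟩
  rw [← hεd] at hε ⊢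
  have hζ0 : ζ ≠ 0 := by
    intro h0
    rw [h0, norm_zero] at hζ
    exact zero_ne_one hζ
  have hε0 : ε ≠ 0 := by
    intro h0
    rw [h0, norm_zero] at hε
    exact zero_ne_one hε
  have hτε : τ ε * ζ ^ (b * A) = ε := by
    rw [hεd, map_div₀, map_pow, map_pow, hfix, hτw, mul_pow, ← pow_mul]
    have h3 : ζ ^ (b * A) ≠ 0 := pow_ne_zero _ hζ0
    field_simp
  have h4 := hτ ε hε.le
  refine sim_of_norm norm_one ?_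
  have h5 : (ε ^ Q1 * ζ ^ (b * A) - 1) * ε = -((τ ε - ε ^ (Q1 + 1)) * ζ ^ (b * A)) := by
    have : (τ ε - ε ^ (Q1 + 1)) * ζ ^ (b * A) = ε - ε ^ (Q1 + 1) * ζ ^ (b * A) := by
      rw [sub_mul, hτε]
    rw [this]
    ring
  have h6 : ‖(ε ^ Q1 * ζ ^ (b * A) - 1) * ε‖ = ‖ε ^ Q1 * ζ ^ (b * A) - 1‖ := by
    rw [norm_mul, hε, mul_one]
  rw [← h6, h5, norm_neg, norm_mul, norm_pow, hζ, one_pow, mul_one]
  exact h4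

theorem no_two {p : ℕ} [Fact p.Prime] {M k : ℕ} (hM : 0 < M) (hMk : M ∣ p ^ k - 1) {w z : PadicAlgCl p} (hw : w ^ M = p)
    (hz : IsPrimitiveRoot z M) {ℓ s e : ℕ} (hℓ : ℓ.Prime) (hℓp : ℓ ≠ p) (hℓM : ℓ ^ s ∣ M) (he : ℓ ∣ e) (he0 : e ≠ 0)
    {τ τ' : PadicAlgCl p ≃ₐ[ℚ_[p]] PadicAlgCl p} {b b' : ℕ} (hb : b < b') (hτw : τ w = z ^ b * w) (hτw' : τ' w = z ^ b' * w)
    (hτ : ∀ x, ‖x‖ ≤ 1 → ‖τ x - x ^ (p ^ k)‖ < 1) (hτ' : ∀ x, ‖x‖ ≤ 1 → ‖τ' x - x ^ (p ^ k)‖ < 1)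
    {t T T' : PadicAlgCl p} (h1 : Sim (T' ^ (e ^ s)) (T ^ (e ^ s))) (hTt : ‖T‖ ^ (e ^ s) = ‖t‖) {A B : ℕ} (hA : 1 ≤ A)
    (hB : 1 ≤ B) (hAB : ‖t‖ ^ B * (p : ℝ) ^ A = 1) (hs : (b' - b) * A < ℓ ^ s) (hfix : τ T = T) (hfix' : τ' T' = T') :
    False := by
  obtain ⟨N, hNd⟩ : ∃ N, N = ℓ ^ s := ⟨_, rfl⟩
  have hN : N ≠ 0 := by rw [hNd]; exact pow_ne_zero _ hℓ.ne_zero
  obtain ⟨e1, rfl⟩ := he
  have hes : (ℓ * e1) ^ s = N * e1 ^ s := by rw [hNd, mul_pow]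
  obtain ⟨g, hg⟩ : ∃ g, g = e1 ^ s := ⟨_, rfl⟩
  rw [← hg] at hes
  obtain ⟨M1, hM1⟩ := hℓM
  rw [← hNd] at hM1 hs
  obtain ⟨Q1, hQ1⟩ : ∃ Q1, Q1 = p ^ k - 1 := ⟨_, rfl⟩
  have hQ : p ^ k = Q1 + 1 := by
    have : 0 < p ^ k := pow_pos (Fact.out : p.Prime).pos k
    omega
  rw [hQ] at hτ hτ'
  rw [← hQ1] at hMk
  have hζp : IsPrimitiveRoot (z ^ M1) N := hz.pow hM (by rw [hM1, mul_comm])
  have hζn : ‖z ^ M1‖ = 1 := by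
    have h1 : ‖z ^ M1‖ ^ N = 1 := by rw [← norm_pow, hζp.pow_eq_one, norm_one]
    exact (pow_eq_one_iff_of_nonneg (norm_nonneg _) hN).mp h1
  have hw1 : (w ^ M1) ^ N = p := by rw [← pow_mul, mul_comm M1 N, ← hM1, hw]
  have hτw1 : τ (w ^ M1) = (z ^ M1) ^ b * w ^ M1 := by
    rw [map_pow, hτw, mul_pow, ← pow_mul, ← pow_mul, mul_comm b M1]
  have hτw1' : τ' (w ^ M1) = (z ^ M1) ^ b' * w ^ M1 := by
    rw [map_pow, hτw', mul_pow, ← pow_mul, ← pow_mul, mul_comm b' M1]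
  have hT : (‖T‖ ^ (g * B)) ^ N * (p : ℝ) ^ A = 1 := by
    have h2 : (‖T‖ ^ (g * B)) ^ N = (‖T‖ ^ (N * g)) ^ B := by
      rw [← pow_mul, ← pow_mul]
      congr 1
      ring
    rw [h2, ← hes, hTt, hAB]
  have hT' : (‖T'‖ ^ (g * B)) ^ N * (p : ℝ) ^ A = 1 := by
    have h2 : (‖T'‖ ^ (g * B)) ^ N = (‖T'‖ ^ (N * g)) ^ B := by
      rw [← pow_mul, ← pow_mul]
      congr 1
      ring
    have h3 := h1.norm_eq
    rw [norm_pow, norm_pow] at h3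
    rw [h2, ← hes, h3, hTt, hAB]
  obtain ⟨hε, hsim⟩ := no_two_aux hN hw1 hζn hτw1 hτ hT hfix
  obtain ⟨hε', hsim'⟩ := no_two_aux hN hw1 hζn hτw1' hτ' hT' hfix'
  obtain ⟨ε, hεd⟩ : ∃ ε, ε = T ^ (g * B) / (w ^ M1) ^ A := ⟨_, rfl⟩
  obtain ⟨ε', hεd'⟩ : ∃ ε', ε' = T' ^ (g * B) / (w ^ M1) ^ A := ⟨_, rfl⟩
  rw [← hεd] at hε hsim
  rw [← hεd'] at hε' hsim'
  have hε0 : ε ≠ 0 := by
    intro h0
    rw [h0, norm_zero] at hε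
    exact zero_ne_one hε
  have hε0' : ε' ≠ 0 := by
    intro h0
    rw [h0, norm_zero] at hε'
    exact zero_ne_one hε'
  have hwA : (w ^ M1) ^ A ≠ 0 := by
    intro h0
    rw [h0, div_zero] at hεd
    exact hε0 hεd
  have hTe : T ^ ((ℓ * e1) ^ s) ≠ 0 := h1.right_ne
  -- the quotient
  have hq : Sim ((ε' / ε) ^ N) (1 : PadicAlgCl p) := by
    have h3 : (ε' / ε) ^ N = (T' ^ ((ℓ * e1) ^ s) / T ^ ((ℓ * e1) ^ s)) ^ B := by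
      have h4 : ε' / ε = T' ^ (g * B) / T ^ (g * B) := by
        rw [hεd, hεd', div_div_div_cancel_right₀ hwA]
      rw [h4, hes, div_pow, div_pow, ← pow_mul, ← pow_mul, ← pow_mul, ← pow_mul]
      congr 2 <;> ring
    have h5 := (h1.div (Sim.refl hTe)).pow B
    rw [div_self hTe, one_pow] at h5
    rw [h3]
    exact h5
  have hq1 : Sim ((ε' / ε) ^ Q1) (1 : PadicAlgCl p) := by
    have hNQ : N ∣ Q1 := (Dvd.intro _ hM1.symm).trans hMk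
    obtain ⟨c, hc⟩ := hNQ
    have h5 := hq.pow c
    rwa [one_pow, ← pow_mul, ← hc] at h5
  obtain ⟨ζ, hζd⟩ : ∃ ζ, ζ = z ^ M1 := ⟨_, rfl⟩
  rw [← hζd] at hζp hζn hsim hsim'
  have hζ0 : ζ ≠ 0 := by
    intro h0
    rw [h0, norm_zero] at hζn
    exact zero_ne_one hζn
  have hfin : Sim (ζ ^ ((b' - b) * A)) (1 : PadicAlgCl p) := by
    have h6 := (hsim'.div hsim).div hq1
    rw [div_one, div_one] at h6
    have h7 : ε' ^ Q1 * ζ ^ (b' * A) / (ε ^ Q1 * ζ ^ (b * A)) / (ε' / ε) ^ Q1 =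
        ζ ^ ((b' - b) * A) := by
      have h8 : b' * A = (b' - b) * A + b * A := by
        rw [← add_mul, Nat.sub_add_cancel hb.le]
      rw [h8, pow_add, div_pow]
      have h9 : ε ^ Q1 ≠ 0 := pow_ne_zero _ hε0
      have h10 : ε' ^ Q1 ≠ 0 := pow_ne_zero _ hε0'
      have h11 : ζ ^ (b * A) ≠ 0 := pow_ne_zero _ hζ0
      field_simp
    rwa [h7] at h6
  have hpN : ¬ p ∣ N := by
    rw [hNd]
    intro h12
    have h13 := (Fact.out : p.Prime).dvd_of_dvd_pow h12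
    exact hℓp ((Nat.prime_dvd_prime_iff_eq Fact.out hℓ).mp h13).symm
  have h14 : ζ ^ ((b' - b) * A) = 1 := by
    refine root_inj hpN ?_ (one_pow N) (hfin.unit norm_one)
    rw [← pow_mul, mul_comm, pow_mul, hζp.pow_eq_one, one_pow]
  have h15 := hζp.dvd_of_pow_eq_one _ h14
  have h16 : 0 < (b' - b) * A := Nat.mul_pos (Nat.sub_pos_of_lt hb) hA
  exact absurd (Nat.le_of_dvd h16 h15) (not_le.mpr hs)

end Pool.Agent.SNP
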