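import Pool.Agent.SNP.Iface
import Pool.Agent.SNP.A.NoTwo
import Pool.Agent.SNP.A.Capt
import Pool.Agent.SNP.A.Fix

/-!
# SNP-A-ASM: `LOC` from `TAU`
-/

set_option autoImplicit false

namespace Pool.Agent.SNP

open Pool.Agent.Helper59.DML

/-- existence of the automorphisms `τ_b`. -/
def TAU : Prop := ∀ (p : ℕ) [Fact p.Prime] (M k : ℕ), 0 < M → M ∣ p ^ k - 1 → 0 < k →
  ∃ (w z : PadicAlgCl p) (tau : ℕ → (PadicAlgCl p ≃ₐ[ℚ_[p]] PadicAlgCl p)), w ^ M = p ∧ IsPrimitiveRoot z M ∧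
    ∀ b, tau b w = z ^ b * w ∧ ∀ x, ‖x‖ ≤ 1 → ‖tau b x - x ^ (p ^ k)‖ < 1

private theorem exists_scale' {K : Type*} [NormedField K] {u : Fin 2 → K} (hu : u ≠ 0) :
    ∃ (l : K) (v : Fin 2 → K), l ≠ 0 ∧ ‖v‖ = 1 ∧ u = fun k => l * v k := by
  obtain ⟨k, hk, hk2⟩ : ∃ k, u k ≠ 0 ∧ ‖u‖ = ‖u k‖ := by
    rcases le_total ‖u 0‖ ‖u 1‖ with h | h
    · have h1 : ‖u‖ = ‖u 1‖ := by
        refine le_antisymm ((pi_norm_le_iff_of_nonneg (norm_nonneg _)).2 fun k => ?_) (norm_le_pi_norm u 1)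
        fin_cases k
        · exact h
        · exact le_rfl
      refine ⟨1, ?_, h1⟩
      intro h0; rw [h0, norm_zero] at h1; exact hu (norm_eq_zero.1 h1)
    · have h1 : ‖u‖ = ‖u 0‖ := by
        refine le_antisymm ((pi_norm_le_iff_of_nonneg (norm_nonneg _)).2 fun k => ?_) (norm_le_pi_norm u 0)
        fin_cases k
        · exact le_rfl
        · exact h
      refine ⟨0, ?_, h1⟩
      intro h0; rw [h0, norm_zero] at h1; exact hu (norm_eq_zero.1 h1)
  refine ⟨u k, fun j => (u k)⁻¹ * u j, hk, ?_, ?_⟩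
  · have : (fun j => (u k)⁻¹ * u j) = (u k)⁻¹ • u := rfl
    rw [this, norm_smul, norm_inv, hk2, inv_mul_cancel₀ (norm_ne_zero_iff.2 hk)]
  · funext j; field_simp

private theorem good_ne' {K : Type*} [NormedField K] {d : ℕ} {c : Fin 2 → Fin (d + 1) → K} (hg : GoodRed c)
    (u : Fin 2 → K) (hu : u ≠ 0) : hlift c u ≠ 0 := by
  obtain ⟨l, v, hl, hv, rfl⟩ := exists_scale' hu
  rw [hlift_smul]
  intro h0
  have h1 : hlift c v = 0 := by
    funext k
    have := congrFun h0 k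
    simp only [Pi.zero_apply, mul_eq_zero] at this
    exact this.resolve_left (pow_ne_zero _ hl)
  have h2 := hg.2 v hv
  rw [h1, norm_zero] at h2
  exact zero_ne_one h2

/-- the coordinates of all the points `z` with `f^n(z) = w` form a finite set. -/
private theorem exists_coords {p : ℕ} [Fact p.Prime] {d : ℕ} (hd : 1 ≤ d) {c : Fin 2 → Fin (d + 1) → ℚ_[p]}
    (hg : GoodRed (cmap (al p) c)) (w w' : Fin 2 → ℚ_[p]) (hw : ‖w‖ = 1) (n : ℕ) :
    ∃ V : Finset (PadicAlgCl p), ∀ y : Fin 2 → PadicAlgCl p, y ≠ 0 →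
      det2 ((hlift (cmap (al p) c))^[n] y) (vmap (al p) w) = 0 →
      tco (vmap (al p) w) (vmap (al p) w') y ∈ V := by
  classical
  have hw0 : vmap (al p) w ≠ 0 := by
    intro h0
    have h1 : w = 0 := by
      funext k
      have := congrFun h0 k
      simp only [vmap, Pi.zero_apply] at this
      exact (map_eq_zero _).1 this
    rw [h1, norm_zero] at hw
    exact zero_ne_one hw
  have hfin := fibre_fin hd (good_ne' hg) n (vmap (al p) w) hw0
  refine ⟨hfin.toFinset.image fun z => tco (vmap (al p) w) (vmap (al p) w') z, fun y hy hyn => ?_⟩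
  obtain ⟨k, hk⟩ : ∃ k, y k ≠ 0 := by
    by_contra hcon
    push Not at hcon
    exact hy (funext hcon)
  set z : Fin 2 → PadicAlgCl p := fun j => (y k)⁻¹ * y j with hz
  have hyz : y = fun j => y k * z j := by
    funext j
    rw [hz]
    field_simp
  refine Finset.mem_image.2 ⟨z, ?_, ?_⟩
  · rw [Set.Finite.mem_toFinset]
    refine ⟨?_, ?_⟩
    · fin_cases k
      · left; rw [hz]; exact inv_mul_cancel₀ hk
      · right; rw [hz]; exact inv_mul_cancel₀ hk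
    · rw [hz, hlift_iter_smul]
      have h1 : det2 (fun k_1 => (y k)⁻¹ ^ d ^ n * (hlift (cmap (al p) c))^[n] y k_1) (vmap (al p) w) =
          (y k)⁻¹ ^ d ^ n * det2 ((hlift (cmap (al p) c))^[n] y) (vmap (al p) w) := by
        simp only [det2]; ring
      rw [h1, hyn, mul_zero]
  · have h1 : tco (vmap (al p) w) (vmap (al p) w') y =
        (y k * det2 (vmap (al p) w) z) / (y k * det2 z (vmap (al p) w')) := by
      rw [tco]
      congr 1
      · conv_lhs => rw [hyz]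
        simp only [det2]; ring
      · conv_lhs => rw [hyz]
        simp only [det2]; ring
    rw [h1, mul_div_mul_left _ _ hk]
    rfl

/-- all the data attached to a captured critical point. -/
private theorem exists_data {p : ℕ} [Fact p.Prime] {d : ℕ} (hd : 2 ≤ d) {c : Fin 2 → Fin (d + 1) → ℚ_[p]}
    (hg : GoodRed (cmap (al p) c)) {w : Fin 2 → ℚ_[p]} (hw : ‖w‖ = 1) (hc : NPer c w ∨ CPer c w)
    (hper : ∃ m, 1 ≤ m ∧ ‖det2 ((hlift c)^[m] w) w‖ < 1) :
    ∃ (m : ℕ) (w' : Fin 2 → ℚ_[p]) (a₀ : ℝ) (e ℓ : ℕ) (γ : ℚ_[p]) (k₀ : ℕ), 1 ≤ m ∧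
      ‖det2 ((hlift c)^[m] w) w‖ < 1 ∧ ‖w'‖ ≤ 1 ∧ det2 w w' = 1 ∧ 0 < a₀ ∧ ℓ.Prime ∧ ℓ ≤ d ∧ ℓ ∣ e ∧ 1 ≤ e ∧
      ‖γ‖ = 1 ∧ Capt c w w' m a₀ e γ ∧ 1 ≤ k₀ ∧ ((p : ℝ)⁻¹) ^ (2 ^ k₀) < a₀ := by
  classical
  have hp := (Fact.out : p.Prime)
  have hC : CPer c w := by
    rcases hc with h | h
    · obtain ⟨m, hm, hm2⟩ := hper
      have := h m hm
      rw [this] at hm2
      exact absurd hm2 (lt_irrefl _)
    · exact h
  obtain ⟨hm1, hm2⟩ := Nat.find_spec hper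
  have hne : det2 ((hlift c)^[Nat.find hper] w) w ≠ 0 := by
    refine hC.2 _ hm1 hm2 fun m' h1 h2 => ?_
    have h3 := Nat.find_min hper h2
    push Not at h3
    refine le_antisymm ?_ (h3 h1)
    have hn : ‖(hlift c)^[m'] w‖ ≤ 1 := by
      have hiter : ∀ n, ‖(hlift c)^[n] w‖ ≤ 1 := by
        intro n
        induction n with
        | zero => exact hw.le
        | succ n ih =>
          rw [Function.iterate_succ_apply']
          refine (pi_norm_le_iff_of_nonneg zero_le_one).2 fun k => norm_form_le (fun j => ?_) ih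
          have := hg.1 k j
          rw [cmap, norm_al] at this
          exact this
      exact hiter m'
    refine norm_det2_le.trans ?_
    calc _ ≤ (1 : ℝ) * 1 := mul_le_mul hn hw.le (norm_nonneg _) zero_le_one
      _ = 1 := one_mul 1
  obtain ⟨w', a₀, e, ℓ, γ, h1, h2, h3, h4, h5, h6, h7, h8, h9, h10⟩ := capt hd hg hw hC.1 hm1 hm2 hne
  obtain ⟨n, hn⟩ := exists_pow_lt_of_lt_one h3 (y := ((p : ℝ)⁻¹)) (inv_lt_one_of_one_lt₀ (by exact_mod_cast hp.one_lt))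
  refine ⟨_, w', a₀, e, ℓ, γ, n + 1, hm1, hm2, h1, h2, h3, h5, h6, h7, h8, h9, h10, by omega, ?_⟩
  refine lt_of_le_of_lt (pow_le_pow_of_le_one (by positivity) (inv_lt_one_of_one_lt₀ (by exact_mod_cast hp.one_lt)).le ?_) hn
  exact (Nat.le_succ n).trans (Nat.lt_two_pow_self (n := n + 1)).le

theorem loc_of_tau (hT : TAU) : LOC := by
  classical
  intro p _ J _ d hd2 hdp c w hg hw hcases
  have hp := (Fact.out : p.Prime)
  have hpR : (1 : ℝ) < p := by exact_mod_cast hp.one_lt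
  -- the captured targets
  set J' := {j : J // ∃ m, 1 ≤ m ∧ ‖det2 ((hlift (c j))^[m] (w j)) (w j)‖ < 1} with hJ'
  have hdata := fun j : J' => exists_data (hd2 j.1) (hg j.1) (hw j.1) (hcases j.1) j.2
  choose m w' a₀ e ℓ γ k₀ hm hmper hw' hww ha₀ hℓ hℓd hℓe he hγ hcapt hk₀ hk₀' using hdata
  -- the finite sets of coordinates
  have hV := fun j : J' => exists_coords (by have := hd2 j.1; omega) (hg j.1) (w j.1) (w' j) (hw j.1) (k₀ j * m j)
  choose V hV using hV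
  have hval : ∀ t : PadicAlgCl p, ∃ A B : ℕ, 1 ≤ A ∧ 1 ≤ B ∧ (t ≠ 0 → ‖t‖ < 1 → ‖t‖ ^ B * (p : ℝ) ^ A = 1) := by
    intro t
    by_cases ht : t ≠ 0 ∧ ‖t‖ < 1
    · obtain ⟨A, B, h1, h2, h3⟩ := norm_val t ht.1 ht.2
      exact ⟨A, B, h1, h2, fun _ _ => h3⟩
    · exact ⟨1, 1, le_rfl, le_rfl, fun h1 h2 => absurd ⟨h1, h2⟩ ht⟩
  choose Af Bf hAf hBf hAB using hval
  obtain ⟨U, hU⟩ : ∃ U : Finset (Σ _ : J', PadicAlgCl p), U = Finset.univ.sigma V := ⟨_, rfl⟩
  obtain ⟨Am, hAm⟩ : ∃ Am : ℕ, ∀ x ∈ U, Af x.2 ≤ Am :=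
    ⟨U.sup fun x => Af x.2, fun x hx => Finset.le_sup (f := fun x : (Σ _ : J', PadicAlgCl p) => Af x.2) hx⟩
  obtain ⟨s, hs⟩ : ∃ s : ℕ, U.card * Am < 2 ^ s := ⟨_, Nat.lt_two_pow_self⟩
  obtain ⟨M, hMdef⟩ : ∃ M : ℕ, M = ((p - 1).factorial) ^ s := ⟨_, rfl⟩
  have hM0 : 0 < M := by rw [hMdef]; exact pow_pos (Nat.factorial_pos _) _
  have hpM : Nat.Coprime p M := by
    rw [hMdef]
    refine Nat.Coprime.pow_right _ ((Nat.Prime.coprime_iff_not_dvd hp).2 ?_)
    rw [hp.dvd_factorial]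
    have := hp.pos
    omega
  obtain ⟨k, hk⟩ : ∃ k, k = M.totient := ⟨_, rfl⟩
  have hk0 : 0 < k := by rw [hk]; exact Nat.totient_pos.2 hM0
  have hpk1 : 1 ≤ p ^ k := Nat.one_le_pow _ _ hp.pos
  have hMk : M ∣ p ^ k - 1 := by
    have := Nat.ModEq.pow_totient hpM
    rw [← hk] at this
    exact (Nat.modEq_iff_dvd' hpk1).1 this.symm
  have hQ2 : 2 ≤ p ^ k := by
    calc 2 ≤ p := hp.two_le
      _ = p ^ 1 := (pow_one p).symm
      _ ≤ p ^ k := Nat.pow_le_pow_right hp.pos hk0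
  obtain ⟨w0, z0, tau, hw0, hz0, htau⟩ := hT p M k hM0 hMk hk0
  obtain ⟨N, hN⟩ : ∃ N : ℕ, N = (∑ j : J', (k₀ j + s) * m j) + (p ^ k) ^ 2 := ⟨_, rfl⟩
  have hNj : ∀ j : J', (k₀ j + s) * m j + (p ^ k) ^ 2 ≤ N := by
    intro j
    rw [hN]
    have := Finset.single_le_sum (f := fun j : J' => (k₀ j + s) * m j) (fun _ _ => Nat.zero_le _) (Finset.mem_univ j)
    omega
  by_contra hcon
  push Not at hcon
  -- data for every `b`
  have key : ∀ b : ℕ, ∃ (j : J') (t T : PadicAlgCl p), t ∈ V j ∧ (p : ℝ)⁻¹ < ‖t‖ ∧ ‖t‖ < 1 ∧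
      Sim t (al p (γ j) ^ (∑ i ∈ Finset.range s, (e j) ^ i) * T ^ ((e j) ^ s)) ∧ tau b T = T := by
    intro b
    obtain ⟨j, z, hz, hzN, hfix⟩ := hcon N (tau b)
    have hfix' : det2 (fun k => tau b (z k)) z = 0 := hfix
    obtain ⟨z₁, hz1, -, hz1N, htz, hres⟩ := normalise (hg j) (htau b).2 hz hzN hfix'
    have hper := path_per (hg j) (hw j) hQ2 hz1 hz1N (fun n _ k => hres n k) (by
      rw [hN]; exact Nat.le_add_left _ _)
    obtain ⟨j', hj'⟩ : ∃ j' : J', j' = ⟨j, hper⟩ := ⟨_, rfl⟩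
    have hjj : j = j'.1 := by rw [hj']
    subst hjj
    have hfd := fixed_data (hg j'.1) (hw j'.1) (hw' j') (hww j') (hm j') (hmper j') (ha₀ j') (hγ j') (hcapt j')
      (hk₀ j') (hk₀' j') hQ2 (hNj j') hz1 hz1N (fun n _ k => hres n k)
    have hnorm : ∀ n, ‖(hlift (cmap (al p) (c j'.1)))^[n] z₁‖ = 1 := by
      intro n
      induction n with
      | zero => exact hz1
      | succ n ih => rw [Function.iterate_succ_apply']; exact (hg j'.1).2 _ ih
    refine ⟨j', _, _, hV j' ((hlift (cmap (al p) (c j'.1)))^[N - k₀ j' * m j'] z₁) ?_ ?_, hfd.1, hfd.2.1, hfd.2.2, ?_⟩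
    · intro h0
      have := hnorm (N - k₀ j' * m j')
      rw [h0, norm_zero] at this
      exact zero_ne_one this
    · rw [← Function.iterate_add_apply]
      have h1 : k₀ j' * m j' + (N - k₀ j' * m j') = N := by
        have h2 := hNj j'
        have h3 : (k₀ j' + s) * m j' = k₀ j' * m j' + s * m j' := by ring
        omega
      rw [h1]
      exact hz1N
    · simp only [tco, det2, vmap, map_div₀, map_sub, map_mul, htz, AlgEquiv.commutes]
  choose jb tb Tb htV ht1 ht2 htS htT using key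
  -- pigeonhole
  obtain ⟨x, hx, y, hy, hxy, hxy2⟩ := Finset.exists_ne_map_eq_of_card_lt_of_maps_to (s := Finset.range (U.card + 1))
    (t := U) (by rw [Finset.card_range]; exact Nat.lt_succ_self _)
    (f := fun b => (⟨jb b, tb b⟩ : Σ _ : J', PadicAlgCl p)) (fun b _ => by
      rw [hU]
      exact Finset.mem_coe.2 (Finset.mem_sigma.2 ⟨Finset.mem_univ _, htV b⟩))
  -- conclusion for `b < b'`
  have main : ∀ b b' : ℕ, b < b' → b' < U.card + 1 → jb b = jb b' → tb b = tb b' → False := by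
    intro b b' hbb hb' hj ht
    have hbU : (⟨jb b, tb b⟩ : Σ _ : J', PadicAlgCl p) ∈ U := by
      rw [hU]
      exact Finset.mem_sigma.2 ⟨Finset.mem_univ _, htV b⟩
    have hA := hAm _ hbU
    have hp0 : 0 < ‖tb b‖ := lt_trans (by positivity) (ht1 b)
    have ht0 : tb b ≠ 0 := norm_pos_iff.1 hp0
    have h1 := htS b
    have h2 := htS b'
    rw [← hj, ← ht] at h2
    have hγ1 : ‖al p (γ (jb b)) ^ (∑ i ∈ Finset.range s, (e (jb b)) ^ i)‖ = 1 := by
      rw [norm_pow, norm_al, hγ, one_pow]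
    have hγ0 : al p (γ (jb b)) ^ (∑ i ∈ Finset.range s, (e (jb b)) ^ i) ≠ 0 := by
      intro h0
      rw [h0, norm_zero] at hγ1
      exact zero_ne_one hγ1
    have hsim : Sim (Tb b' ^ (e (jb b) ^ s)) (Tb b ^ (e (jb b) ^ s)) :=
      Sim.cancel_left hγ0 (h2.symm.trans h1)
    have hnT : ‖Tb b‖ ^ (e (jb b) ^ s) = ‖tb b‖ := by
      rw [h1.norm_eq, norm_mul, hγ1, one_mul, norm_pow]
    have hℓp : ℓ (jb b) < p := (hℓd (jb b)).trans_lt (hdp _)
    refine no_two hM0 hMk hw0 hz0 (hℓ (jb b)) hℓp.ne ?_ (hℓe (jb b)) (by have := he (jb b); omega) hbb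
      (htau b).1 (htau b').1 (htau b).2 (htau b').2 hsim hnT (hAf (tb b)) (hBf (tb b)) (hAB (tb b) ht0 (ht2 b)) ?_
      (htT b) (htT b')
    · rw [hMdef]
      refine pow_dvd_pow_of_dvd (Nat.dvd_factorial (hℓ (jb b)).pos ?_) _
      omega
    · calc (b' - b) * Af (tb b) ≤ U.card * Am := Nat.mul_le_mul (by omega) hA
        _ < 2 ^ s := hs
        _ ≤ ℓ (jb b) ^ s := Nat.pow_le_pow_left (hℓ (jb b)).two_le _
  have hinj1 : jb x = jb y := congrArg Sigma.fst hxy2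
  have hinj2 : tb x = tb y := by
    have := hxy2
    simp only [Sigma.mk.injEq, heq_eq_eq] at this
    exact this.2
  rw [Finset.mem_range] at hx hy
  rcases lt_or_gt_of_ne hxy with h | h
  · exact main x y h hy hinj1 hinj2
  · exact main y x h hx hinj1.symm hinj2.symm

end Pool.Agent.SNP
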