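import Pool.Agent.SNP.A.Sim

/-!
# SNP-A-DISCP: the quotient of two polynomials on the open unit disc

PROOF. `e` = the least `i` with `‖P.coeff i‖ = 1` (`Nat.find`), `γ = P.coeff e / Q.coeff 0`. `‖t‖ < 1`. `P(t) = ∑ p_i t^i`, `Q(t) = ∑ q_i t^i`. `‖Q(t)‖ = 1` since `Q(t) - q_0` has norm `≤ ‖t‖ < 1`. `‖p_i‖ < 1` for `i < e`, hence `≤ p⁻¹` (norms in `ℚ_p`: `Padic.norm_lt_one_iff_dvd`,
`Padic.norm_le_pow_iff_norm_lt_pow_add_one`..). `‖P(t)‖ < 1`: `‖p_0‖ < 1` and `‖P(t) - p_0‖ ≤ ‖t‖`. `G = P(t)/Q(t)`, `G - p_0/q_0 = ((P(t) - p_0) q_0 - p_0 (Q(t) - q_0)) / (Q(t) q_0)`, norm `≤ ‖t‖`.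
If `p⁻¹ < ‖G‖ = ‖P(t)‖`: `‖∑_{i<e} p_i t^i‖ ≤ p⁻¹`, so `‖P(t) - ∑_{i ≥ e} p_i t^i‖ ≤ p⁻¹ < ‖P(t)‖`, and `‖∑_{i ≥ e} p_i t^i - p_e t^e‖ ≤ ‖t‖^(e+1) < ‖t‖^e = ‖p_e t^e‖` (if `t ≠ 0`; `t ≠ 0` because otherwise `‖P(t)‖ = ‖p_0‖ ≤ p⁻¹` as `e ≥ 1`), so
`‖∑_{i ≥ e}‖ = ‖t‖^e = ‖P(t)‖` and `Sim (P t) (p_e t^e)`; `Sim (Q t) q_0`; divide.
`e ≥ 2` and `‖G‖ ≤ ‖t‖²` if `p_0 = p_1 = 0`: `‖P(t)‖ ≤ max_{i≥2} ‖t‖^i ≤ ‖t‖²`. `e ≤ natDegree P` because `P.coeff e ≠ 0`.
-/

set_option autoImplicit false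

namespace Pool.Agent.SNP

open Pool.Agent.Helper59.DML Polynomial

private lemma dp_le_inv {p : ℕ} [Fact p.Prime] {x : ℚ_[p]} (h : ‖x‖ < 1) : ‖x‖ ≤ (p : ℝ)⁻¹ := by
  have h1 := (Padic.norm_le_pow_iff_norm_lt_pow_add_one x (-1)).mpr (by simpa using h)
  rwa [zpow_neg_one] at h1

/-- all terms but one are small -/
private lemma dp_diff {p : ℕ} [Fact p.Prime] (P : ℚ_[p][X]) (t : PadicAlgCl p) (e : ℕ) {C : ℝ}
    (hC0 : 0 ≤ C) (hC : ∀ i, i ≠ e → ‖al p (P.coeff i) * t ^ i‖ ≤ C) :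
    ‖(P.map (al p)).eval t - al p (P.coeff e) * t ^ e‖ ≤ C := by
  have h1 : (P.map (al p)).eval t
      = ∑ i ∈ Finset.range (max P.natDegree e + 1), al p (P.coeff i) * t ^ i := by
    rw [Polynomial.eval_map]
    exact Polynomial.eval₂_eq_sum_range' _ (Nat.lt_succ_of_le (le_max_left _ _)) _
  have he : e ∈ Finset.range (max P.natDegree e + 1) :=
    Finset.mem_range.mpr (Nat.lt_succ_of_le (le_max_right _ _))
  rw [h1, ← Finset.add_sum_erase _ _ he, add_sub_cancel_left]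
  refine IsUltrametricDist.norm_sum_le_of_forall_le_of_nonneg hC0 fun i hi => ?_
  exact hC i (Finset.ne_of_mem_erase hi)

theorem disc_poly {p : ℕ} [Fact p.Prime] {P Q : ℚ_[p][X]} (hP : ∀ i, ‖P.coeff i‖ ≤ 1) (hQ : ∀ i, ‖Q.coeff i‖ ≤ 1)
    (hQ0 : ‖Q.coeff 0‖ = 1) (hP0 : ‖P.coeff 0‖ < 1) (hex : ∃ i, ‖P.coeff i‖ = 1) :
    ∃ (e : ℕ) (γ : ℚ_[p]), 1 ≤ e ∧ e ≤ P.natDegree ∧ ‖γ‖ = 1 ∧ (P.coeff 0 = 0 → P.coeff 1 = 0 → 2 ≤ e) ∧
      ∀ t : PadicAlgCl p, ‖t‖ < 1 → ‖(Q.map (al p)).eval t‖ = 1 ∧ ‖(P.map (al p)).eval t‖ < 1 ∧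
        ‖(P.map (al p)).eval t / (Q.map (al p)).eval t - al p (P.coeff 0 / Q.coeff 0)‖ ≤ ‖t‖ ∧
        (P.coeff 0 = 0 → P.coeff 1 = 0 → ‖(P.map (al p)).eval t / (Q.map (al p)).eval t‖ ≤ ‖t‖ ^ 2) ∧
        ((p : ℝ)⁻¹ < ‖(P.map (al p)).eval t / (Q.map (al p)).eval t‖ →
          Sim ((P.map (al p)).eval t / (Q.map (al p)).eval t) (al p γ * t ^ e)) := by
  classical
  have hp1 : 0 < (p : ℝ)⁻¹ := by
    have := (Fact.out : p.Prime).pos
    positivity
  obtain ⟨e, he, hmin⟩ : ∃ e, ‖P.coeff e‖ = 1 ∧ ∀ i, i < e → ‖P.coeff i‖ < 1 := by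
    refine ⟨Nat.find hex, Nat.find_spec hex, fun i hi => ?_⟩
    exact lt_of_le_of_ne (hP i) (Nat.find_min hex hi)
  have hq0 : Q.coeff 0 ≠ 0 := by
    intro h0
    rw [h0, norm_zero] at hQ0
    exact zero_ne_one hQ0
  have he1 : 1 ≤ e := by
    rcases Nat.eq_zero_or_pos e with h0 | h0
    · rw [h0] at he
      exact absurd he hP0.ne
    · exact h0
  -- the terms
  have hterm : ∀ (R : ℚ_[p][X]), (∀ i, ‖R.coeff i‖ ≤ 1) → ∀ t : PadicAlgCl p, ‖t‖ < 1 →
      ∀ i m : ℕ, m ≤ i → ‖al p (R.coeff i) * t ^ i‖ ≤ ‖t‖ ^ m := by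
    intro R hR t ht i m hm
    rw [norm_mul, norm_pow, norm_al]
    calc ‖R.coeff i‖ * ‖t‖ ^ i ≤ 1 * ‖t‖ ^ i := by gcongr; exact hR i
      _ = ‖t‖ ^ i := one_mul _
      _ ≤ ‖t‖ ^ m := pow_le_pow_of_le_one (norm_nonneg _) ht.le hm
  have hzero : ∀ (R : ℚ_[p][X]), (∀ i, ‖R.coeff i‖ ≤ 1) → ∀ t : PadicAlgCl p, ‖t‖ < 1 →
      ‖(R.map (al p)).eval t - al p (R.coeff 0)‖ ≤ ‖t‖ := by
    intro R hR t ht
    have := dp_diff R t 0 (norm_nonneg t) (fun i hi => by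
      have := hterm R hR t ht i 1 (Nat.one_le_iff_ne_zero.mpr hi)
      rwa [pow_one] at this)
    rwa [pow_zero, mul_one] at this
  refine ⟨e, P.coeff e / Q.coeff 0, he1, ?_, ?_, ?_, ?_⟩
  · apply Polynomial.le_natDegree_of_ne_zero
    intro h0
    rw [h0, norm_zero] at he
    exact zero_ne_one he
  · rw [norm_div, he, hQ0, div_one]
  · intro h0 h1
    by_contra h2
    have h3 : e = 1 := by omega
    rw [h3, h1, norm_zero] at he
    exact zero_ne_one he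
  · intro t ht
    have hQt : ‖(Q.map (al p)).eval t - al p (Q.coeff 0)‖ < 1 := lt_of_le_of_lt (hzero Q hQ t ht) ht
    have hq1 : ‖al p (Q.coeff 0)‖ = 1 := by rw [norm_al, hQ0]
    have hQs : Sim ((Q.map (al p)).eval t) (al p (Q.coeff 0)) := sim_of_norm hq1 hQt
    have hQn : ‖(Q.map (al p)).eval t‖ = 1 := by rw [hQs.norm_eq, hq1]
    have hPz := hzero P hP t ht
    have hPn : ‖(P.map (al p)).eval t‖ < 1 := by
      have h1 : (P.map (al p)).eval t
          = ((P.map (al p)).eval t - al p (P.coeff 0)) + al p (P.coeff 0) := by ring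
      rw [h1]
      refine lt_of_le_of_lt (IsUltrametricDist.norm_add_le_max _ _) (max_lt ?_ ?_)
      · exact lt_of_le_of_lt hPz ht
      · rw [norm_al]
        exact hP0
    have hdivn : ‖(P.map (al p)).eval t / (Q.map (al p)).eval t‖ = ‖(P.map (al p)).eval t‖ := by
      rw [norm_div, hQn, div_one]
    refine ⟨hQn, hPn, ?_, ?_, ?_⟩
    · have hq0' : al p (Q.coeff 0) ≠ 0 := hQs.right_ne
      have hQ0' : (Q.map (al p)).eval t ≠ 0 := hQs.left_ne
      have h1 : (P.map (al p)).eval t / (Q.map (al p)).eval t - al p (P.coeff 0 / Q.coeff 0)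
          = (((P.map (al p)).eval t - al p (P.coeff 0)) * al p (Q.coeff 0)
            - al p (P.coeff 0) * ((Q.map (al p)).eval t - al p (Q.coeff 0)))
            / ((Q.map (al p)).eval t * al p (Q.coeff 0)) := by
        rw [map_div₀]
        field_simp
        ring
      rw [h1, norm_div, norm_mul, hQn, hq1, mul_one, div_one, sub_eq_add_neg]
      refine (IsUltrametricDist.norm_add_le_max _ _).trans (max_le ?_ ?_)
      · rw [norm_mul, hq1, mul_one]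
        exact hPz
      · rw [norm_neg, norm_mul, norm_al]
        calc ‖P.coeff 0‖ * ‖(Q.map (al p)).eval t - al p (Q.coeff 0)‖
            ≤ 1 * ‖t‖ := by
              apply mul_le_mul (hP 0) (hzero Q hQ t ht) (norm_nonneg _) zero_le_one
          _ = ‖t‖ := one_mul _
    · intro h0 h1
      rw [hdivn]
      have := dp_diff P t 0 (C := ‖t‖ ^ 2) (by positivity) (fun i hi => by
        rcases Nat.lt_or_ge i 2 with h2 | h2
        · have h3 : i = 1 := by omega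
          rw [h3, h1, map_zero, zero_mul, norm_zero]
          positivity
        · exact hterm P hP t ht i 2 h2)
      rwa [h0, map_zero, zero_mul, sub_zero] at this
    · intro hbig
      rw [hdivn] at hbig
      have hi_small : ∀ i, i < e → ‖al p (P.coeff i) * t ^ i‖ ≤ (p : ℝ)⁻¹ := by
        intro i hi
        rw [norm_mul, norm_pow, norm_al]
        calc ‖P.coeff i‖ * ‖t‖ ^ i ≤ (p : ℝ)⁻¹ * 1 := by
              apply mul_le_mul (dp_le_inv (hmin i hi)) (pow_le_one₀ (norm_nonneg _) ht.le)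
                (by positivity) hp1.le
          _ = (p : ℝ)⁻¹ := mul_one _
      have hdiff : ‖(P.map (al p)).eval t - al p (P.coeff e) * t ^ e‖
          ≤ max (p : ℝ)⁻¹ (‖t‖ ^ (e + 1)) := by
        refine dp_diff P t e (le_max_of_le_left hp1.le) fun i hi => ?_
        rcases Nat.lt_or_gt_of_ne hi with h2 | h2
        · exact le_max_of_le_left (hi_small i h2)
        · exact le_max_of_le_right (hterm P hP t ht i (e + 1) h2)
      have hen : ‖al p (P.coeff e) * t ^ e‖ = ‖t‖ ^ e := by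
        rw [norm_mul, norm_pow, norm_al, he, one_mul]
      have hmon : ‖t‖ ^ (e + 1) ≤ ‖t‖ ^ e :=
        pow_le_pow_of_le_one (norm_nonneg _) ht.le (Nat.le_succ e)
      have hte : (p : ℝ)⁻¹ < ‖t‖ ^ e := by
        by_contra hle
        rw [not_lt] at hle
        apply absurd hbig
        rw [not_lt]
        have h1 : (P.map (al p)).eval t = ((P.map (al p)).eval t - al p (P.coeff e) * t ^ e)
            + al p (P.coeff e) * t ^ e := by ring
        rw [h1]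
        refine (IsUltrametricDist.norm_add_le_max _ _).trans (max_le ?_ ?_)
        · exact hdiff.trans (max_le le_rfl (hmon.trans hle))
        · rw [hen]
          exact hle
      have ht0 : 0 < ‖t‖ := by
        rcases (norm_nonneg t).lt_or_eq with h2 | h2
        · exact h2
        · rw [← h2, zero_pow (by omega)] at hte
          linarith
      have hstrict : ‖t‖ ^ (e + 1) < ‖t‖ ^ e := by
        rw [pow_succ]
        have : 0 < ‖t‖ ^ e := pow_pos ht0 e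
        nlinarith
      have hPs : Sim ((P.map (al p)).eval t) (al p (P.coeff e) * t ^ e) := by
        unfold Sim
        rw [hen]
        exact lt_of_le_of_lt hdiff (max_lt hte hstrict)
      have h2 := hPs.div hQs
      have h3 : al p (P.coeff e / Q.coeff 0) * t ^ e
          = al p (P.coeff e) * t ^ e / al p (Q.coeff 0) := by
        rw [map_div₀]
        ring
      rw [h3]
      exact h2

end Pool.Agent.SNP
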