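import Pool.Agent.SNP.A.Base

/-!
# SNP-A-SURJ: rational maps are surjective; fibres are finite

PROOF. (a) `hlift_surj` (one step): the binary form `z ↦ det2 (hlift c z) y` of degree `d ≥ 1` over an algebraically closed field has a nontrivial zero: if `z = (1, 0)` is not a zero then the polynomial `det2 (hlift c (x, 1)) y` in `x` has degree exactly `d ≥ 1`
(its coefficient of `x^d` is the value at `(1, 0)`), so it has a root (`IsAlgClosed.exists_root`). (b) `n` steps by induction: `det2 (hlift^[n+1] z) y = 0`: choose `z'` with `det2 (hlift^[n] z') y = 0`, `z' ≠ 0`, then `z` with `det2 (hlift c z) z' = 0`, `z ≠ 0`;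
`hlift c z = μ z'` with `μ ≠ 0` (`hlift c z ≠ 0`), `hlift_iter_smul`.
(c) `fibre_fin`: the form `z ↦ det2 (hlift^[n] z) y` is not identically zero: by (b) there is `z ≠ 0` with `det2 (hlift^[n] z) y' = 0` where `y'` is not proportional to `y`, and `hlift^[n] z ≠ 0`, so `hlift^[n] z` is not proportional to `y`. So the polynomial `x ↦ det2 (hlift^[n] (x, 1)) y`
is not zero (otherwise the form, which is homogeneous, vanishes at all `(x, 1)`, hence at all `(x, w)`, `w ≠ 0`, hence as a polynomial in `w` for fixed `x` (infinitely many `w`) also at `w = 0`). Finitely many roots. Same for `(1, x)`.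
-/

set_option autoImplicit false

namespace Pool.Agent.SNP

open Pool.Agent.Helper59.DML

theorem hlift_iter_ne {K : Type*} [Field K] {d : ℕ} {c : Fin 2 → Fin (d + 1) → K}
    (hc : ∀ u : Fin 2 → K, u ≠ 0 → hlift c u ≠ 0) (n : ℕ) {z : Fin 2 → K} (hz : z ≠ 0) : (hlift c)^[n] z ≠ 0 := by
  induction n with
  | zero => simpa using hz
  | succ n ih => rw [Function.iterate_succ_apply']; exact hc _ ih

private lemma exists_smul_of_det2 {K : Type*} [Field K] {v w : Fin 2 → K} (hw : w ≠ 0)
    (h : det2 v w = 0) : ∃ l : K, v = fun k => l * w k := by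
  have h' : v 0 * w 1 = v 1 * w 0 := by
    have := h
    simp only [det2] at this
    exact sub_eq_zero.1 this
  by_cases h0 : w 0 = 0
  · have h1 : w 1 ≠ 0 := by
      intro h1
      apply hw
      funext k
      fin_cases k
      · simpa using h0
      · simpa using h1
    refine ⟨v 1 / w 1, ?_⟩
    funext k
    fin_cases k
    · have : v 0 * w 1 = 0 := by rw [h', h0, mul_zero]
      have hv : v 0 = 0 := by
        rcases mul_eq_zero.1 this with h2 | h2
        · exact h2
        · exact absurd h2 h1
      simp [hv, h0]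
    · simp only [Fin.mk_one, Fin.isValue]
      field_simp
  · refine ⟨v 0 / w 0, ?_⟩
    funext k
    fin_cases k
    · simp only [Fin.zero_eta, Fin.isValue]
      field_simp
    · simp only [Fin.mk_one, Fin.isValue]
      field_simp
      linear_combination -h'

private lemma form_zero_exists {K : Type*} [Field K] [IsAlgClosed K] {d : ℕ} (hd : 1 ≤ d)
    (q : Fin (d + 1) → K) : ∃ z : Fin 2 → K, z ≠ 0 ∧ form q z = 0 := by
  classical
  by_cases hq : q (Fin.last d) = 0
  · refine ⟨![1, 0], ?_, ?_⟩
    · intro h
      have := congrFun h 0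
      simp at this
    · simp only [form]
      refine Finset.sum_eq_zero fun i _ => ?_
      rcases Fin.eq_castSucc_or_eq_last i with ⟨j, rfl⟩ | rfl
      · have h1 : d - (j : ℕ) ≠ 0 := by
          have := j.2
          omega
        simp [h1]
      · simp [hq]
  · set p : Polynomial K := ∑ i : Fin (d + 1), Polynomial.C (q i) * Polynomial.X ^ (i : ℕ) with hp
    have hco : p.coeff d = q (Fin.last d) := by
      rw [hp, Polynomial.finsetSum_coeff, Finset.sum_eq_single (Fin.last d)]
      · simp
      · intro i _ hi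
        have : (i : ℕ) ≠ d := by
          intro h
          apply hi
          apply Fin.ext
          simpa using h
        rw [Polynomial.coeff_C_mul, Polynomial.coeff_X_pow, if_neg (Ne.symm this), mul_zero]
      · intro h
        exact absurd (Finset.mem_univ _) h
    have hdeg : p.degree ≠ 0 := by
      intro h
      have h1 : p.natDegree = 0 := Polynomial.natDegree_eq_of_degree_eq_some h
      have h2 : p.coeff d = 0 := Polynomial.coeff_eq_zero_of_natDegree_lt (by omega)
      rw [hco] at h2
      exact hq h2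
    obtain ⟨x, hx⟩ := IsAlgClosed.exists_root p hdeg
    refine ⟨![x, 1], ?_, ?_⟩
    · intro h
      have := congrFun h 1
      simp at this
    · have h1 : p.eval x = 0 := hx
      rw [hp, Polynomial.eval_finsetSum] at h1
      simp only [form]
      rw [← h1]
      refine Finset.sum_congr rfl fun i _ => ?_
      simp

private lemma det2_hlift_eq_form {K : Type*} [Field K] {d : ℕ} (c : Fin 2 → Fin (d + 1) → K)
    (y z : Fin 2 → K) : det2 (hlift c z) y = form (fun i => c 0 i * y 1 - c 1 i * y 0) z := by
  simp only [det2, hlift, form, Finset.sum_mul]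
  rw [← Finset.sum_sub_distrib]
  refine Finset.sum_congr rfl fun i _ => ?_
  ring

theorem hlift_surj {K : Type*} [Field K] [IsAlgClosed K] {d : ℕ} (hd : 1 ≤ d) {c : Fin 2 → Fin (d + 1) → K}
    (hc : ∀ u : Fin 2 → K, u ≠ 0 → hlift c u ≠ 0) (n : ℕ) (y : Fin 2 → K) (hy : y ≠ 0) :
    ∃ z : Fin 2 → K, z ≠ 0 ∧ det2 ((hlift c)^[n] z) y = 0 := by
  induction n with
  | zero =>
    refine ⟨y, hy, ?_⟩
    simp only [Function.iterate_zero, id, det2]
    ring
  | succ n ih =>
    obtain ⟨z', hz', h'⟩ := ih
    obtain ⟨z, hz, h⟩ := form_zero_exists hd (fun i => c 0 i * z' 1 - c 1 i * z' 0)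
    rw [← det2_hlift_eq_form] at h
    obtain ⟨l, hl⟩ := exists_smul_of_det2 hz' h
    refine ⟨z, hz, ?_⟩
    rw [Function.iterate_succ_apply, hl, hlift_iter_smul]
    have h2 : det2 (fun k => l ^ d ^ n * (hlift c)^[n] z' k) y =
        l ^ d ^ n * det2 ((hlift c)^[n] z') y := by
      simp only [det2]
      ring
    rw [h2, h', mul_zero]

private lemma eval_det2_iter {K : Type*} [Field K] {d : ℕ} (c : Fin 2 → Fin (d + 1) → K) (n : ℕ)
    (y : Fin 2 → K) (v : Fin 2 → Polynomial K) (x : K) :
    (det2 ((hlift (fun k i => Polynomial.C (c k i)))^[n] v) (fun k => Polynomial.C (y k))).eval x =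
      det2 ((hlift c)^[n] (fun k => (v k).eval x)) y := by
  have h := map_det2 (Polynomial.evalRingHom x) ((hlift (fun k i => Polynomial.C (c k i)))^[n] v)
    (fun k => Polynomial.C (y k))
  rw [vmap_hlift_iter] at h
  have h1 : cmap (Polynomial.evalRingHom x) (fun k i => Polynomial.C (c k i)) = c := by
    funext k i
    simp [cmap]
  have h2 : vmap (Polynomial.evalRingHom x) v = fun k => (v k).eval x := by
    funext k
    simp [vmap]
  have h3 : vmap (Polynomial.evalRingHom x) (fun k => Polynomial.C (y k)) = y := by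
    funext k
    simp [vmap]
  rw [h1, h2, h3] at h
  exact h

private lemma exists_avoid {K : Type*} [Field K] [Infinite K] (a b : Fin 2 → K) (ha : a ≠ 0)
    (hb : b ≠ 0) : ∃ y : Fin 2 → K, y ≠ 0 ∧ det2 y a ≠ 0 ∧ det2 y b ≠ 0 := by
  classical
  obtain ⟨t, ht⟩ := Infinite.exists_notMem_finset ({a 1 / a 0, b 1 / b 0} : Finset K)
  simp only [Finset.mem_insert, Finset.mem_singleton, not_or] at ht
  have key : ∀ a : Fin 2 → K, a ≠ 0 → t ≠ a 1 / a 0 → det2 ![1, t] a ≠ 0 := by
    intro a ha hta h
    simp only [det2, Matrix.cons_val_zero, Matrix.cons_val_one, one_mul] at h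
    by_cases h0 : a 0 = 0
    · apply ha
      rw [h0, mul_zero, sub_zero] at h
      funext k
      fin_cases k
      · simpa using h0
      · simpa using h
    · apply hta
      rw [eq_div_iff h0]
      linear_combination -h
  refine ⟨![1, t], ?_, key a ha ht.1, key b hb ht.2⟩
  intro h
  have := congrFun h 0
  simp at this

private lemma exists_point {K : Type*} [Field K] [IsAlgClosed K] {d : ℕ} (hd : 1 ≤ d)
    {c : Fin 2 → Fin (d + 1) → K}
    (hc : ∀ u : Fin 2 → K, u ≠ 0 → hlift c u ≠ 0) (n : ℕ) (y : Fin 2 → K) (hy : y ≠ 0)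
    (e : Fin 2 → K) (he : e ≠ 0) :
    ∃ z : Fin 2 → K, det2 z e ≠ 0 ∧ det2 ((hlift c)^[n] z) y ≠ 0 := by
  have : Infinite K := IsAlgClosed.instInfinite
  obtain ⟨y', hy', h1, h2⟩ := exists_avoid y ((hlift c)^[n] e) hy (hlift_iter_ne hc n he)
  obtain ⟨z, hz, h⟩ := hlift_surj hd hc n y' hy'
  obtain ⟨l, hl⟩ := exists_smul_of_det2 hy' h
  have hl0 : l ≠ 0 := by
    rintro rfl
    apply hlift_iter_ne hc n hz
    rw [hl]
    funext k
    simp
  refine ⟨z, ?_, ?_⟩
  · intro h3
    obtain ⟨m, hm⟩ := exists_smul_of_det2 he h3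
    rw [hm, hlift_iter_smul] at hl
    have hm0 : m ≠ 0 := by
      rintro rfl
      apply hz
      rw [hm]
      funext k
      simp
    have h4 : m ^ d ^ n * det2 y' ((hlift c)^[n] e) = 0 := by
      have e0 := congrFun hl 0
      have e1 := congrFun hl 1
      simp only [det2]
      linear_combination y' 0 * e1 - y' 1 * e0
    rcases mul_eq_zero.1 h4 with h5 | h5
    · exact pow_ne_zero _ hm0 h5
    · exact h2 h5
  · rw [hl]
    have : det2 (fun k => l * y' k) y = l * det2 y' y := by
      simp only [det2]
      ring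
    rw [this]
    exact mul_ne_zero hl0 h1

theorem fibre_fin {K : Type*} [Field K] [IsAlgClosed K] {d : ℕ} (hd : 1 ≤ d) {c : Fin 2 → Fin (d + 1) → K}
    (hc : ∀ u : Fin 2 → K, u ≠ 0 → hlift c u ≠ 0) (n : ℕ) (y : Fin 2 → K) (hy : y ≠ 0) :
    {z : Fin 2 → K | (z 0 = 1 ∨ z 1 = 1) ∧ det2 ((hlift c)^[n] z) y = 0}.Finite := by
  classical
  set P : Polynomial K := det2 ((hlift (fun k i => Polynomial.C (c k i)))^[n] ![Polynomial.X, 1])
    (fun k => Polynomial.C (y k)) with hP
  set Q : Polynomial K := det2 ((hlift (fun k i => Polynomial.C (c k i)))^[n] ![1, Polynomial.X])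
    (fun k => Polynomial.C (y k)) with hQ
  have eP : ∀ x : K, P.eval x = det2 ((hlift c)^[n] ![x, 1]) y := by
    intro x
    rw [hP, eval_det2_iter]
    have : (fun k => Polynomial.eval x ((![Polynomial.X, 1] : Fin 2 → Polynomial K) k)) = ![x, 1] := by
      funext k
      fin_cases k <;> simp
    rw [this]
  have eQ : ∀ x : K, Q.eval x = det2 ((hlift c)^[n] ![1, x]) y := by
    intro x
    rw [hQ, eval_det2_iter]
    have : (fun k => Polynomial.eval x ((![1, Polynomial.X] : Fin 2 → Polynomial K) k)) = ![1, x] := by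
      funext k
      fin_cases k <;> simp
    rw [this]
  have hP0 : P ≠ 0 := by
    intro h0
    obtain ⟨z, h1, h2⟩ := exists_point hd hc n y hy ![1, 0] (by
      intro h
      have := congrFun h 0
      simp at this)
    have hz1 : z 1 ≠ 0 := by
      intro h3
      apply h1
      simp [det2, h3]
    apply h2
    have hz : z = fun k => z 1 * (![z 0 / z 1, 1] : Fin 2 → K) k := by
      funext k
      fin_cases k
      · simp only [Fin.zero_eta, Fin.isValue, Matrix.cons_val_zero]
        field_simp
      · simp
    rw [hz, hlift_iter_smul]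
    have h3 := eP (z 0 / z 1)
    rw [h0, Polynomial.eval_zero] at h3
    have h4 : det2 (fun k => z 1 ^ d ^ n * (hlift c)^[n] ![z 0 / z 1, 1] k) y =
        z 1 ^ d ^ n * det2 ((hlift c)^[n] ![z 0 / z 1, 1]) y := by
      simp only [det2]
      ring
    rw [h4, ← h3, mul_zero]
  have hQ0 : Q ≠ 0 := by
    intro h0
    obtain ⟨z, h1, h2⟩ := exists_point hd hc n y hy ![0, 1] (by
      intro h
      have := congrFun h 1
      simp at this)
    have hz1 : z 0 ≠ 0 := by
      intro h3
      apply h1
      simp [det2, h3]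
    apply h2
    have hz : z = fun k => z 0 * (![1, z 1 / z 0] : Fin 2 → K) k := by
      funext k
      fin_cases k
      · simp
      · have : (![1, z 1 / z 0] : Fin 2 → K) 1 = z 1 / z 0 := rfl
        simp only [Fin.mk_one, Fin.isValue, this]
        field_simp
    rw [hz, hlift_iter_smul]
    have h3 := eQ (z 1 / z 0)
    rw [h0, Polynomial.eval_zero] at h3
    have h4 : det2 (fun k => z 0 ^ d ^ n * (hlift c)^[n] ![1, z 1 / z 0] k) y =
        z 0 ^ d ^ n * det2 ((hlift c)^[n] ![1, z 1 / z 0]) y := by
      simp only [det2]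
      ring
    rw [h4, ← h3, mul_zero]
  refine Set.Finite.subset (((P.roots.toFinset.finite_toSet).image (fun x : K => (![x, 1] : Fin 2 → K))).union
    ((Q.roots.toFinset.finite_toSet).image (fun x : K => (![1, x] : Fin 2 → K)))) ?_
  rintro z ⟨hz | hz, h⟩
  · right
    refine ⟨z 1, ?_, ?_⟩
    · have hz' : z = ![1, z 1] := by
        funext k
        fin_cases k
        · simpa using hz
        · simp
      rw [hz'] at h
      simp only [Finset.mem_coe, Multiset.mem_toFinset]
      rw [Polynomial.mem_roots hQ0, Polynomial.IsRoot.def, eQ]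
      exact h
    · funext k
      fin_cases k
      · simpa using hz.symm
      · simp
  · left
    refine ⟨z 0, ?_, ?_⟩
    · have hz' : z = ![z 0, 1] := by
        funext k
        fin_cases k
        · simp
        · simpa using hz
      rw [hz'] at h
      simp only [Finset.mem_coe, Multiset.mem_toFinset]
      rw [Polynomial.mem_roots hP0, Polynomial.IsRoot.def, eP]
      exact h
    · funext k
      fin_cases k
      · simp
      · simpa using hz.symm

end Pool.Agent.SNP
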