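import Pool.Agent.SNP.A.Expn
import Pool.Agent.SNP.A.Surj
import Pool.Agent.SNP.A.DiscP

/-!
# SNP-A-DISC: an iterate between two residue discs

PROOF. `P` from `expn` for `a, a'`. `P₁ = C (b 0) * P 1 - C (b 1) * P 0` (so that `P₁(t) = det2 b (f^n(a + t a'))`), `Q₁ = P 0 * C (b' 1) - P 1 * C (b' 0)` (`Q₁(t) = det2 (f^n(a + t a')) b'`). Coefficients of norm `≤ 1`. `Q₁.coeff 0 = det2 (f^n a) b'`: norm one because
`f^n a = det2 (f^n a) b' · b + det2 b (f^n a) · b'` (as `det2 b b' = 1`) has norm one (good reduction: `f^n` of a primitive vector is primitive; `‖al x‖ = ‖x‖`) and `‖det2 b (f^n a)‖ < 1`. `P₁.coeff 0 = det2 b (f^n a)`, norm `< 1`.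
There is `i` with `‖P₁.coeff i‖ = 1`: otherwise all are `< 1`, and by the last conclusion of `expn` (the form in `x, y`) `‖det2 b (f^n z)‖ < 1` for all `z = x a + y a'` with `‖x‖, ‖y‖ ≤ 1`, i.e. for all `z` with `‖z‖ ≤ 1` (`x = det2 z a'`, `y = det2 a z`); by `hlift_surj` (`Ω` algebraically closed,
`hc` from `GoodRed`: scale `u ≠ 0` to norm one) there is `z ≠ 0`, w.l.o.g. `‖z‖ = 1` (divide by the coordinate of larger norm), with `det2 (f^n z) b' = 0`; `f^n z` is primitive, so `f^n z = μ b'` with `‖μ‖ = 1` (`‖b'‖ = 1` as `det2 b b' = 1`) and `‖det2 b (f^n z)‖ = ‖μ‖ = 1`, contradiction.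
Then `disc_poly` for `P₁, Q₁`. `tco b b' y = P₁(t) / Q₁(t)`. In `disc_crit` (`n = 1`, `b = hlift c a`): `P₁.coeff 0 = det2 b b = 0`, `P₁.coeff 1 = det2 (hlift c a) (dlift c a a') = det2 a a' * jac c a = 0` (`det_dlift`), degree `≤ d`.
-/

set_option autoImplicit false
set_option linter.unusedSectionVars false

namespace Pool.Agent.SNP

open Pool.Agent.Helper59.DML Polynomial

section aux
variable {K : Type*} [NormedField K] [IsUltrametricDist K]

private theorem vnorm_coord (u : Fin 2 → K) (k : Fin 2) : ‖u k‖ ≤ ‖u‖ := norm_le_pi_norm u k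

private theorem add_norm_le_max (x y : K) : ‖x + y‖ ≤ max ‖x‖ ‖y‖ :=
  IsUltrametricDist.norm_add_le_max x y

private theorem sub_norm_le_max (x y : K) : ‖x - y‖ ≤ max ‖x‖ ‖y‖ := by
  rw [sub_eq_add_neg, ← norm_neg y]
  exact add_norm_le_max x (-y)

private theorem det2_norm_le (u v : Fin 2 → K) : ‖det2 u v‖ ≤ ‖u‖ * ‖v‖ := by
  unfold det2
  refine (sub_norm_le_max _ _).trans (max_le ?_ ?_)
  · rw [norm_mul]
    exact mul_le_mul (vnorm_coord u 0) (vnorm_coord v 1) (norm_nonneg _) (norm_nonneg _)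
  · rw [norm_mul]
    exact mul_le_mul (vnorm_coord u 1) (vnorm_coord v 0) (norm_nonneg _) (norm_nonneg _)

private theorem det2_norm_le_one {u v : Fin 2 → K} (hu : ‖u‖ ≤ 1) (hv : ‖v‖ ≤ 1) :
    ‖det2 u v‖ ≤ 1 :=
  (det2_norm_le u v).trans (mul_le_one₀ hu (norm_nonneg _) hv)

private theorem decomp (b b' v : Fin 2 → K) (hbb : det2 b b' = 1) (k : Fin 2) :
    v k = det2 v b' * b k + det2 b v * b' k := by
  unfold det2 at *
  fin_cases k
  · show v 0 = (v 0 * b' 1 - v 1 * b' 0) * b 0 + (b 0 * v 1 - b 1 * v 0) * b' 0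
    linear_combination (- v 0) * hbb
  · show v 1 = (v 0 * b' 1 - v 1 * b' 0) * b 1 + (b 0 * v 1 - b 1 * v 0) * b' 1
    linear_combination (- v 1) * hbb

/-- a primitive vector has a coordinate of norm one in the basis `b, b'` -/
private theorem prim_coord {b b' v : Fin 2 → K} (hb : ‖b‖ ≤ 1) (hb' : ‖b'‖ ≤ 1)
    (hbb : det2 b b' = 1) (hv : ‖v‖ = 1) : 1 ≤ max ‖det2 v b'‖ ‖det2 b v‖ := by
  rw [← hv]
  refine (pi_norm_le_iff_of_nonneg (le_max_of_le_left (norm_nonneg _))).2 fun k => ?_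
  rw [decomp b b' v hbb k]
  refine (add_norm_le_max _ _).trans (max_le_max ?_ ?_)
  · rw [norm_mul]
    exact mul_le_of_le_one_right (norm_nonneg _) ((vnorm_coord b k).trans hb)
  · rw [norm_mul]
    exact mul_le_of_le_one_right (norm_nonneg _) ((vnorm_coord b' k).trans hb')

/-- scale a nonzero vector to norm one -/
private theorem exists_scale {u : Fin 2 → K} (hu : u ≠ 0) :
    ∃ s : K, s ≠ 0 ∧ ‖(fun k => s * u k)‖ = 1 := by
  have h0 : ‖u‖ ≠ 0 := norm_ne_zero_iff.2 hu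
  obtain ⟨k, hk⟩ : ∃ k : Fin 2, ‖u k‖ = ‖u‖ := by
    by_contra hcon
    push Not at hcon
    have h1 : ∀ k, ‖u k‖ < ‖u‖ := fun k => lt_of_le_of_ne (vnorm_coord u k) (hcon k)
    have h2 : ‖u‖ < ‖u‖ := (pi_norm_lt_iff (lt_of_le_of_ne (norm_nonneg _) (Ne.symm h0))).2 h1
    exact lt_irrefl _ h2
  have hk0 : u k ≠ 0 := fun h => h0 (by rw [← hk, h, norm_zero])
  refine ⟨(u k)⁻¹, inv_ne_zero hk0, le_antisymm ?_ ?_⟩
  · refine (pi_norm_le_iff_of_nonneg zero_le_one).2 fun j => ?_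
    rw [norm_mul, norm_inv, hk, inv_mul_le_iff₀ (lt_of_le_of_ne (norm_nonneg _) (Ne.symm h0)),
      mul_one]
    exact vnorm_coord u j
  · have h3 := norm_le_pi_norm (fun j => (u k)⁻¹ * u j) k
    have h4 : ‖(u k)⁻¹ * u k‖ = 1 := by rw [inv_mul_cancel₀ hk0, norm_one]
    exact h4 ▸ h3

private theorem good_iter {d : ℕ} {c : Fin 2 → Fin (d + 1) → K} (hg : GoodRed c) (n : ℕ)
    {u : Fin 2 → K} (hu : ‖u‖ = 1) : ‖(hlift c)^[n] u‖ = 1 := by
  induction n with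
  | zero => exact hu
  | succ n ih => rw [Function.iterate_succ_apply']; exact hg.2 _ ih

private theorem good_ne {d : ℕ} {c : Fin 2 → Fin (d + 1) → K} (hg : GoodRed c)
    (u : Fin 2 → K) (hu : u ≠ 0) : hlift c u ≠ 0 := by
  obtain ⟨s, hs0, hs⟩ := exists_scale hu
  intro h
  have h1 := hg.2 _ hs
  rw [hlift_smul, h] at h1
  have h2 : (fun k => s ^ d * (0 : Fin 2 → K) k) = 0 := by
    funext k; simp
  rw [h2, norm_zero] at h1
  exact zero_ne_one h1

end aux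

private theorem vmap_norm {p : ℕ} [Fact p.Prime] (v : Fin 2 → ℚ_[p]) : ‖vmap (al p) v‖ = ‖v‖ := by
  refine le_antisymm ?_ ?_
  · refine (pi_norm_le_iff_of_nonneg (norm_nonneg _)).2 fun k => ?_
    show ‖al p (v k)‖ ≤ _
    rw [norm_al]; exact norm_le_pi_norm v k
  · refine (pi_norm_le_iff_of_nonneg (norm_nonneg _)).2 fun k => ?_
    rw [← norm_al (v k)]; exact norm_le_pi_norm (vmap (al p) v) k

private theorem disc_core {p : ℕ} [Fact p.Prime] {d : ℕ} (hd : 1 ≤ d)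
    {c : Fin 2 → Fin (d + 1) → ℚ_[p]} (hg : GoodRed (cmap (al p) c))
    (n : ℕ) {a a' b b' : Fin 2 → ℚ_[p]} (ha : ‖a‖ = 1) (ha' : ‖a'‖ ≤ 1) (hb : ‖b‖ = 1) (hb' : ‖b'‖ ≤ 1) (haa : det2 a a' = 1)
    (hbb : det2 b b' = 1) (hab : ‖det2 b ((hlift c)^[n] a)‖ < 1)
    {P : Fin 2 → ℚ_[p][X]} (hP : ∀ k i, ‖(P k).coeff i‖ ≤ 1) (hP0 : ∀ k, (P k).coeff 0 = (hlift c)^[n] a k)
    (hPxy : ∀ (x y : PadicAlgCl p), (hlift (cmap (al p) c))^[n] (fun k => x * al p (a k) + y * al p (a' k)) =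
        fun k => ∑ i ∈ Finset.range (d ^ n + 1), al p ((P k).coeff i) * x ^ (d ^ n - i) * y ^ i) :
    ∃ P₁ Q₁ : ℚ_[p][X], (∀ i, ‖P₁.coeff i‖ ≤ 1) ∧ (∀ i, ‖Q₁.coeff i‖ ≤ 1) ∧ ‖Q₁.coeff 0‖ = 1 ∧
      ‖P₁.coeff 0‖ < 1 ∧ (∃ i, ‖P₁.coeff i‖ = 1) ∧ (∀ i, P₁.coeff i = det2 b (fun k => (P k).coeff i)) ∧
      (∀ i, Q₁.coeff i = det2 (fun k => (P k).coeff i) b') ∧
      ∀ (t : PadicAlgCl p) (y : Fin 2 → PadicAlgCl p), (∀ k, y k = ((P k).map (al p)).eval t) →
        det2 (vmap (al p) b) y = (P₁.map (al p)).eval t ∧ det2 y (vmap (al p) b') = (Q₁.map (al p)).eval t := by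
  have hfa : ‖(hlift c)^[n] a‖ = 1 := by
    rw [← vmap_norm, vmap_hlift_iter]
    exact good_iter hg n (by rw [vmap_norm, ha])
  have hcoef : ∀ i, ‖(fun k => (P k).coeff i : Fin 2 → ℚ_[p])‖ ≤ 1 := fun i =>
    (pi_norm_le_iff_of_nonneg zero_le_one).2 fun k => hP k i
  have hfun : (fun k => (P k).coeff 0 : Fin 2 → ℚ_[p]) = (hlift c)^[n] a := funext hP0
  have hP1c : ∀ i, (C (b 0) * P 1 - C (b 1) * P 0).coeff i = det2 b (fun k => (P k).coeff i) := by
    intro i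
    simp [det2, coeff_C_mul]
  have hQ1c : ∀ i, (P 0 * C (b' 1) - P 1 * C (b' 0)).coeff i = det2 (fun k => (P k).coeff i) b' := by
    intro i
    simp [det2, coeff_mul_C]
  refine ⟨C (b 0) * P 1 - C (b 1) * P 0, P 0 * C (b' 1) - P 1 * C (b' 0), ?_, ?_, ?_, ?_, ?_, hP1c, hQ1c, ?_⟩
  · intro i; rw [hP1c]; exact det2_norm_le_one hb.le (hcoef i)
  · intro i; rw [hQ1c]; exact det2_norm_le_one (hcoef i) hb'
  · rw [hQ1c, hfun]
    have h1 := prim_coord hb.le hb' hbb hfa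
    rcases le_max_iff.1 h1 with h2 | h2
    · exact le_antisymm (det2_norm_le_one hfa.le hb') h2
    · exact absurd hab (not_lt.2 h2)
  · rw [hP1c, hfun]; exact hab
  · by_contra hcon
    push Not at hcon
    have hlt : ∀ i, ‖det2 b (fun k => (P k).coeff i)‖ < 1 := by
      intro i
      have h1 := hcon i
      rw [hP1c] at h1
      exact lt_of_le_of_ne (det2_norm_le_one hb.le (hcoef i)) h1
    have hAA : det2 (vmap (al p) a) (vmap (al p) a') = 1 := by rw [← map_det2, haa, map_one]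
    have hBB : det2 (vmap (al p) b) (vmap (al p) b') = 1 := by rw [← map_det2, hbb, map_one]
    have hAn : ‖vmap (al p) a‖ ≤ 1 := by rw [vmap_norm, ha]
    have hAn' : ‖vmap (al p) a'‖ ≤ 1 := by rw [vmap_norm]; exact ha'
    have hBn : ‖vmap (al p) b‖ ≤ 1 := by rw [vmap_norm, hb]
    have hBn' : ‖vmap (al p) b'‖ ≤ 1 := by rw [vmap_norm]; exact hb'
    -- values on the unit ball are small
    have hsmall : ∀ z : Fin 2 → PadicAlgCl p, ‖z‖ = 1 →
        ‖det2 (vmap (al p) b) ((hlift (cmap (al p) c))^[n] z)‖ < 1 := by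
      intro z hz
      have hzf : z = fun k => det2 z (vmap (al p) a') * al p (a k) + det2 (vmap (al p) a) z * al p (a' k) := by
        funext k
        exact decomp (vmap (al p) a) (vmap (al p) a') z hAA k
      have hx : ‖det2 z (vmap (al p) a')‖ ≤ 1 := det2_norm_le_one hz.le hAn'
      have hy : ‖det2 (vmap (al p) a) z‖ ≤ 1 := det2_norm_le_one hAn hz.le
      have hval : (hlift (cmap (al p) c))^[n] z = fun k => ∑ i ∈ Finset.range (d ^ n + 1),
          al p ((P k).coeff i) * (det2 z (vmap (al p) a')) ^ (d ^ n - i) * (det2 (vmap (al p) a) z) ^ i := by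
        rw [← hPxy (det2 z (vmap (al p) a')) (det2 (vmap (al p) a) z), ← hzf]
      have hdet : det2 (vmap (al p) b) ((hlift (cmap (al p) c))^[n] z) = ∑ i ∈ Finset.range (d ^ n + 1),
          al p (det2 b (fun k => (P k).coeff i)) * (det2 z (vmap (al p) a')) ^ (d ^ n - i) *
            (det2 (vmap (al p) a) z) ^ i := by
        rw [hval]
        generalize det2 z (vmap (al p) a') = x
        generalize det2 (vmap (al p) a) z = y
        simp only [det2, vmap, map_sub, map_mul]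
        rw [Finset.mul_sum, Finset.mul_sum, ← Finset.sum_sub_distrib]
        refine Finset.sum_congr rfl fun i _ => ?_
        ring
      rw [hdet]
      obtain ⟨i, _, hi⟩ := IsUltrametricDist.exists_norm_finsetSum_le_of_nonempty
        (Finset.nonempty_range_iff.2 (Nat.succ_ne_zero (d ^ n))) (fun i =>
          al p (det2 b (fun k => (P k).coeff i)) * (det2 z (vmap (al p) a')) ^ (d ^ n - i) *
            (det2 (vmap (al p) a) z) ^ i)
      refine hi.trans_lt ?_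
      rw [norm_mul, norm_mul, norm_pow, norm_pow, norm_al]
      calc ‖det2 b fun k => (P k).coeff i‖ * ‖det2 z (vmap (al p) a')‖ ^ (d ^ n - i) *
            ‖det2 (vmap (al p) a) z‖ ^ i ≤ ‖det2 b fun k => (P k).coeff i‖ * 1 * 1 := by
              gcongr
              · exact pow_le_one₀ (norm_nonneg _) hx
              · exact pow_le_one₀ (norm_nonneg _) hy
        _ < 1 := by rw [mul_one, mul_one]; exact hlt i
    have hB0 : vmap (al p) b' ≠ 0 := by
      intro h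
      rw [h] at hBB
      simp [det2] at hBB
    obtain ⟨z, hz0, hz⟩ := hlift_surj hd (good_ne hg) n (vmap (al p) b') hB0
    obtain ⟨s, hs0, hs⟩ := exists_scale hz0
    have h1 : det2 ((hlift (cmap (al p) c))^[n] (fun k => s * z k)) (vmap (al p) b') = 0 := by
      rw [hlift_iter_smul]
      unfold det2 at hz ⊢
      linear_combination (s ^ d ^ n) * hz
    have h2 := prim_coord hBn hBn' hBB (good_iter hg n hs)
    rw [h1, norm_zero, max_eq_right (norm_nonneg _)] at h2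
    exact absurd (hsmall _ hs) (not_lt.2 h2)
  · intro t y hy
    constructor
    · simp only [det2, vmap, hy, Polynomial.map_sub, Polynomial.map_mul, Polynomial.map_C,
        eval_sub, eval_mul, eval_C]
    · simp only [det2, vmap, hy, Polynomial.map_sub, Polynomial.map_mul, Polynomial.map_C,
        eval_sub, eval_mul, eval_C]

theorem disc_main {p : ℕ} [Fact p.Prime] {d : ℕ} (hd : 1 ≤ d) {c : Fin 2 → Fin (d + 1) → ℚ_[p]} (hg : GoodRed (cmap (al p) c))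
    (n : ℕ) {a a' b b' : Fin 2 → ℚ_[p]} (ha : ‖a‖ = 1) (ha' : ‖a'‖ ≤ 1) (hb : ‖b‖ = 1) (hb' : ‖b'‖ ≤ 1) (haa : det2 a a' = 1)
    (hbb : det2 b b' = 1) (hab : ‖det2 b ((hlift c)^[n] a)‖ < 1) :
    ∃ (e : ℕ) (γ : ℚ_[p]), 1 ≤ e ∧ ‖γ‖ = 1 ∧ ∀ t : PadicAlgCl p, ‖t‖ < 1 → ∀ y : Fin 2 → PadicAlgCl p,
      y = (hlift (cmap (al p) c))^[n] (lin (vmap (al p) a) (vmap (al p) a') t) →
      ‖det2 y (vmap (al p) b')‖ = 1 ∧ ‖tco (vmap (al p) b) (vmap (al p) b') y‖ < 1 ∧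
      ‖tco (vmap (al p) b) (vmap (al p) b') y - al p (tco b b' ((hlift c)^[n] a))‖ ≤ ‖t‖ ∧
      ((p : ℝ)⁻¹ < ‖tco (vmap (al p) b) (vmap (al p) b') y‖ →
        Sim (tco (vmap (al p) b) (vmap (al p) b') y) (al p γ * t ^ e)) := by
  have hc : ∀ k j, ‖c k j‖ ≤ 1 := fun k j => by
    have := hg.1 k j
    rwa [cmap, norm_al] at this
  obtain ⟨P, hP, -, hP0, hPt, hPxy⟩ := expn hc n ha.le ha'
  obtain ⟨P₁, Q₁, hP1, hQ1, hQ0, hP10, hex, hPc, hQc, hev⟩ :=
    disc_core hd hg n ha ha' hb hb' haa hbb hab hP hP0 hPxy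
  have hfun : (fun k => (P k).coeff 0 : Fin 2 → ℚ_[p]) = (hlift c)^[n] a := funext hP0
  obtain ⟨e, γ, he, -, hγ, -, hall⟩ := disc_poly hP1 hQ1 hQ0 hP10 hex
  refine ⟨e, γ, he, hγ, ?_⟩
  intro t ht y hy
  obtain ⟨h1, h2, h3, -, h5⟩ := hall t ht
  obtain ⟨hv1, hv2⟩ := hev t y (fun k => by rw [hy]; exact hPt t k)
  have htco : tco (vmap (al p) b) (vmap (al p) b') y =
      (P₁.map (al p)).eval t / (Q₁.map (al p)).eval t := by
    unfold tco; rw [hv1, hv2]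
  have htco0 : tco b b' ((hlift c)^[n] a) = P₁.coeff 0 / Q₁.coeff 0 := by
    unfold tco; rw [hPc, hQc, hfun]
  refine ⟨?_, ?_, ?_, ?_⟩
  · rw [hv2]; exact h1
  · rw [htco, norm_div, h1, div_one]; exact h2
  · rw [htco, htco0]; exact h3
  · rw [htco]; exact h5

theorem disc_crit {p : ℕ} [Fact p.Prime] {d : ℕ} (hd : 1 ≤ d) {c : Fin 2 → Fin (d + 1) → ℚ_[p]} (hg : GoodRed (cmap (al p) c))
    {a a' b' : Fin 2 → ℚ_[p]} (ha : ‖a‖ = 1) (ha' : ‖a'‖ ≤ 1) (hb' : ‖b'‖ ≤ 1) (haa : det2 a a' = 1)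
    (hbb : det2 (hlift c a) b' = 1) (hj : jac c a = 0) :
    ∃ (e : ℕ) (γ : ℚ_[p]), 2 ≤ e ∧ e ≤ d ∧ ‖γ‖ = 1 ∧ ∀ t : PadicAlgCl p, ‖t‖ < 1 → ∀ y : Fin 2 → PadicAlgCl p,
      y = hlift (cmap (al p) c) (lin (vmap (al p) a) (vmap (al p) a') t) →
      ‖det2 y (vmap (al p) b')‖ = 1 ∧ ‖tco (vmap (al p) (hlift c a)) (vmap (al p) b') y‖ < 1 ∧
      ‖tco (vmap (al p) (hlift c a)) (vmap (al p) b') y‖ ≤ ‖t‖ ^ 2 ∧
      ((p : ℝ)⁻¹ < ‖tco (vmap (al p) (hlift c a)) (vmap (al p) b') y‖ →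
        Sim (tco (vmap (al p) (hlift c a)) (vmap (al p) b') y) (al p γ * t ^ e)) := by
  have hc : ∀ k j, ‖c k j‖ ≤ 1 := fun k j => by
    have := hg.1 k j
    rwa [cmap, norm_al] at this
  obtain ⟨P, hP, hdeg, hP0, hP1', hPt, hPxy⟩ := expn_one hc ha.le ha'
  have hb : ‖hlift c a‖ = 1 := by
    have h1 := vmap_hlift_iter (al p) c a 1
    rw [Function.iterate_one, Function.iterate_one] at h1
    rw [← vmap_norm, h1]
    exact hg.2 _ (by rw [vmap_norm, ha])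
  have hself : det2 (hlift c a) (hlift c a) = 0 := by unfold det2; ring
  have hab : ‖det2 (hlift c a) ((hlift c)^[1] a)‖ < 1 := by
    rw [Function.iterate_one, hself, norm_zero]; exact zero_lt_one
  obtain ⟨P₁, Q₁, hP1, hQ1, hQ0, hP10, hex, hPc, hQc, hev⟩ :=
    disc_core hd hg 1 ha ha' hb hb' haa hbb hab hP hP0 (by
      intro x y
      rw [pow_one]
      exact hPxy x y)
  have hfun : (fun k => (P k).coeff 0 : Fin 2 → ℚ_[p]) = hlift c a := funext hP0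
  have hfun1 : (fun k => (P k).coeff 1 : Fin 2 → ℚ_[p]) = dlift c a a' := funext hP1'
  have hz0 : P₁.coeff 0 = 0 := by rw [hPc, hfun, hself]
  have hz1 : P₁.coeff 1 = 0 := by rw [hPc, hfun1, det_dlift, hj, mul_zero]
  have hnd : P₁.natDegree ≤ d := by
    rw [natDegree_le_iff_coeff_eq_zero]
    intro N hN
    rw [hPc]
    have h0 : ∀ k, (P k).coeff N = 0 := fun k =>
      coeff_eq_zero_of_natDegree_lt (lt_of_le_of_lt (hdeg k) hN)
    simp [det2, h0]
  obtain ⟨e, γ, he, hed, hγ, he2, hall⟩ := disc_poly hP1 hQ1 hQ0 hP10 hex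
  refine ⟨e, γ, he2 hz0 hz1, hed.trans hnd, hγ, ?_⟩
  intro t ht y hy
  obtain ⟨h1, h2, h3, h4, h5⟩ := hall t ht
  obtain ⟨hv1, hv2⟩ := hev t y (fun k => by rw [hy]; exact hPt t k)
  have htco : tco (vmap (al p) (hlift c a)) (vmap (al p) b') y =
      (P₁.map (al p)).eval t / (Q₁.map (al p)).eval t := by
    unfold tco; rw [hv1, hv2]
  refine ⟨?_, ?_, ?_, ?_⟩
  · rw [hv2]; exact h1
  · rw [htco, norm_div, h1, div_one]; exact h2
  · rw [htco]; exact h4 hz0 hz1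
  · rw [htco]; exact h5

end Pool.Agent.SNP
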