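import Pool.Agent.SNP.A.Sim

/-!
# SNP-A-EXPN: iterates along a line as polynomials

PROOF. Take `P k = (hlift (fun k j => C (c k j)))^[n] (fun k => C (a k) + X * C (a' k)) k` in the polynomial ring `R[X]`. Coefficients of norm `≤ 1`: the set of polynomials over `ℚ_[p]` with all coefficients of norm `≤ 1` is closed under
sums, products, powers (ultrametric inequality, `Polynomial.coeff_mul`). Degree: by induction `natDegree (P k) ≤ d^n` (`form` of degree `d`: `natDegree_sum_le_of_forall_le`, `natDegree_mul_le`, `natDegree_pow_le`). Evaluation: `map_hlift_iter`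
(`DML/Forms.lean`) for the ring homomorphism `R[X] →+* Ω`, `Polynomial.eval₂RingHom`. For `expn_one` (`n = 1`): the coefficients of degree `0` and `1` of `form (C∘c) (C a + X C a')` are `form c a` and `dform c a a'`
(evaluate at `X = 0`; derivative at `X = 0`: `Polynomial.coeff_one_eq..`/`derivative_eval`, product rule gives exactly the definition of `dform`).
-/

set_option autoImplicit false

namespace Pool.Agent.SNP

open Pool.Agent.Helper59.DML Polynomial

/-- polynomials with integral coefficients -/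
private def Itg {p : ℕ} [Fact p.Prime] (Q : ℚ_[p][X]) : Prop := ∀ i, ‖Q.coeff i‖ ≤ 1

private theorem Itg.sum {p : ℕ} [Fact p.Prime] {ι : Type*} (s : Finset ι) (f : ι → ℚ_[p][X])
    (h : ∀ i ∈ s, Itg (f i)) : Itg (∑ i ∈ s, f i) := by
  intro n
  rw [finsetSum_coeff]
  exact IsUltrametricDist.norm_sum_le_of_forall_le_of_nonneg zero_le_one fun i hi => h i hi n

private theorem Itg.add {p : ℕ} [Fact p.Prime] {f g : ℚ_[p][X]} (hf : Itg f) (hg : Itg g) :
    Itg (f + g) := by
  intro n
  rw [coeff_add]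
  exact (IsUltrametricDist.norm_add_le_max _ _).trans (max_le (hf n) (hg n))

private theorem Itg.mul {p : ℕ} [Fact p.Prime] {f g : ℚ_[p][X]} (hf : Itg f) (hg : Itg g) :
    Itg (f * g) := by
  intro n
  rw [coeff_mul]
  refine IsUltrametricDist.norm_sum_le_of_forall_le_of_nonneg zero_le_one fun i _ => ?_
  rw [norm_mul]
  exact mul_le_one₀ (hf _) (norm_nonneg _) (hg _)

private theorem Itg.C {p : ℕ} [Fact p.Prime] {x : ℚ_[p]} (hx : ‖x‖ ≤ 1) :
    Itg (Polynomial.C x) := by
  intro n
  rw [coeff_C]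
  split_ifs
  · exact hx
  · simp

private theorem Itg.X {p : ℕ} [Fact p.Prime] : Itg (Polynomial.X : ℚ_[p][X]) := by
  intro n
  rw [coeff_X]
  split_ifs <;> simp

private theorem Itg.pow {p : ℕ} [Fact p.Prime] {f : ℚ_[p][X]} (hf : Itg f) (n : ℕ) :
    Itg (f ^ n) := by
  induction n with
  | zero =>
    rw [pow_zero]
    have := Itg.C (p := p) (x := 1) (by simp)
    simpa using this
  | succ n ih => rw [pow_succ]; exact ih.mul hf

private theorem itg_form {p : ℕ} [Fact p.Prime] {d : ℕ} {c : Fin (d + 1) → ℚ_[p]}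
    (hc : ∀ j, ‖c j‖ ≤ 1) {v : Fin 2 → ℚ_[p][X]} (hv : ∀ k, Itg (v k)) :
    Itg (form (fun j => Polynomial.C (c j)) v) := by
  unfold form
  exact Itg.sum _ _ fun i _ => ((Itg.C (hc i)).mul ((hv 0).pow _)).mul ((hv 1).pow _)

private theorem deg_form {R : Type*} [CommRing R] {d m : ℕ} (c : Fin (d + 1) → R)
    {v : Fin 2 → R[X]} (hv : ∀ k, (v k).natDegree ≤ m) :
    (form (fun j => Polynomial.C (c j)) v).natDegree ≤ d * m := by
  unfold form
  refine natDegree_sum_le_of_forall_le _ _ fun i _ => ?_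
  refine (natDegree_mul_le).trans ?_
  have h1 : (Polynomial.C (c i) * v 0 ^ (i : ℕ)).natDegree ≤ (i : ℕ) * m :=
    (natDegree_C_mul_le _ _).trans ((natDegree_pow_le).trans (Nat.mul_le_mul_left _ (hv 0)))
  have h2 : (v 1 ^ (d - (i : ℕ))).natDegree ≤ (d - (i : ℕ)) * m :=
    (natDegree_pow_le).trans (Nat.mul_le_mul_left _ (hv 1))
  have h3 : (i : ℕ) ≤ d := Nat.lt_succ_iff.mp i.2
  calc _ ≤ (i : ℕ) * m + (d - (i : ℕ)) * m := Nat.add_le_add h1 h2
    _ = d * m := by rw [← Nat.add_mul]; congr 1; omega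

/-- the polynomial expansion -/
private noncomputable def PP {R : Type*} [CommRing R] {d : ℕ} (c : Fin 2 → Fin (d + 1) → R) (n : ℕ)
    (a a' : Fin 2 → R) : Fin 2 → R[X] :=
  (hlift (fun k j => Polynomial.C (c k j)))^[n]
    (fun k => Polynomial.C (a k) + Polynomial.X * Polynomial.C (a' k))

private theorem PP_itg {p : ℕ} [Fact p.Prime] {d : ℕ} {c : Fin 2 → Fin (d + 1) → ℚ_[p]}
    (hc : ∀ k j, ‖c k j‖ ≤ 1) (n : ℕ) {a a' : Fin 2 → ℚ_[p]} (ha : ‖a‖ ≤ 1) (ha' : ‖a'‖ ≤ 1)
    (k : Fin 2) : Itg (PP c n a a' k) := by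
  unfold PP
  induction n generalizing k with
  | zero =>
    exact (Itg.C ((norm_le_pi_norm a k).trans ha)).add
      (Itg.X.mul (Itg.C ((norm_le_pi_norm a' k).trans ha')))
  | succ n ih =>
    rw [Function.iterate_succ_apply']
    exact itg_form (hc k) ih

private theorem PP_deg {R : Type*} [CommRing R] {d : ℕ} (c : Fin 2 → Fin (d + 1) → R) (n : ℕ)
    (a a' : Fin 2 → R) (k : Fin 2) : (PP c n a a' k).natDegree ≤ d ^ n := by
  unfold PP
  induction n generalizing k with
  | zero =>
    rw [Function.iterate_zero, id, pow_zero]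
    refine (natDegree_add_le _ _).trans (max_le ?_ ?_)
    · rw [natDegree_C]; exact Nat.zero_le _
    · refine (natDegree_mul_C_le _ _).trans ?_
      exact natDegree_X_le
  | succ n ih =>
    rw [Function.iterate_succ_apply', pow_succ, mul_comm (d ^ n) d]
    exact deg_form (c k) ih

private theorem PP_hom {R S : Type*} [CommRing R] [CommRing S] {d : ℕ}
    (c : Fin 2 → Fin (d + 1) → R) (n : ℕ) (a a' : Fin 2 → R) (f : R →+* S) (t : S) (k : Fin 2) :
    eval₂ f t (PP c n a a' k) = (hlift (cmap f c))^[n] (fun k => f (a k) + t * f (a' k)) k := by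
  have h := congrFun (map_hlift_iter (eval₂RingHom f t) (fun k j => Polynomial.C (c k j))
    (fun k => Polynomial.C (a k) + Polynomial.X * Polynomial.C (a' k)) n) k
  unfold PP
  rw [← coe_eval₂RingHom, h]
  have h1 : (fun k j => (eval₂RingHom f t) (Polynomial.C (c k j))) = cmap f c := by
    funext k j
    simp [cmap]
  have h2 : (fun k => (eval₂RingHom f t) (Polynomial.C (a k) + Polynomial.X * Polynomial.C (a' k)))
      = fun k => f (a k) + t * f (a' k) := by
    funext k
    rw [map_add, map_mul]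
    simp only [coe_eval₂RingHom, eval₂_C, eval₂_X]
  rw [h1, h2]

private theorem PP_zero {R : Type*} [CommRing R] {d : ℕ} (c : Fin 2 → Fin (d + 1) → R) (n : ℕ)
    (a a' : Fin 2 → R) (k : Fin 2) : (PP c n a a' k).coeff 0 = (hlift c)^[n] a k := by
  have h := PP_hom c n a a' (RingHom.id R) 0 k
  rw [coeff_zero_eq_eval_zero, eval, h]
  have h1 : cmap (RingHom.id R) c = c := by
    funext k j
    simp [cmap]
  have h2 : (fun k => (RingHom.id R) (a k) + 0 * (RingHom.id R) (a' k)) = a := by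
    funext k
    simp
  rw [h1, h2]

private theorem PP_two {K L : Type*} [Field K] [Field L] [Infinite L] {d : ℕ}
    (c : Fin 2 → Fin (d + 1) → K) (n : ℕ) (a a' : Fin 2 → K) (f : K →+* L) (x y : L) (k : Fin 2) :
    (hlift (cmap f c))^[n] (fun k => x * f (a k) + y * f (a' k)) k =
      ∑ i ∈ Finset.range (d ^ n + 1), f ((PP c n a a' k).coeff i) * x ^ (d ^ n - i) * y ^ i := by
  -- the identity for `x ≠ 0`
  have key : ∀ x : L, x ≠ 0 → (hlift (cmap f c))^[n] (fun k => x * f (a k) + y * f (a' k)) k =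
      ∑ i ∈ Finset.range (d ^ n + 1), f ((PP c n a a' k).coeff i) * x ^ (d ^ n - i) * y ^ i := by
    intro x hx
    have h1 : (fun k => x * f (a k) + y * f (a' k)) = fun k => x * (f (a k) + y / x * f (a' k)) := by
      funext k
      field_simp
    rw [h1, hlift_iter_smul (cmap f c) x (fun k => f (a k) + y / x * f (a' k)) n]
    have h2 := PP_hom c n a a' f (y / x) k
    simp only
    rw [← h2, eval₂_eq_sum_range' f (n := d ^ n + 1) (Nat.lt_succ_of_le (PP_deg c n a a' k)),
      Finset.mul_sum]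
    refine Finset.sum_congr rfl fun i hi => ?_
    have hi' : i ≤ d ^ n := Nat.lt_succ_iff.mp (Finset.mem_range.mp hi)
    have h3 : x ^ (d ^ n) = x ^ (d ^ n - i) * x ^ i := by rw [← pow_add]; congr 1; omega
    rw [h3, div_pow]
    field_simp
  -- polynomial identity in `x`
  set Q1 : L[X] := PP (cmap f c) n (fun k => y * f (a' k)) (fun k => f (a k)) k with hQ1
  set Q2 : L[X] := ∑ i ∈ Finset.range (d ^ n + 1),
    Polynomial.C (f ((PP c n a a' k).coeff i) * y ^ i) * Polynomial.X ^ (d ^ n - i) with hQ2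
  have e1 : ∀ x : L, Q1.eval x = (hlift (cmap f c))^[n] (fun k => x * f (a k) + y * f (a' k)) k := by
    intro x
    have h := PP_hom (cmap f c) n (fun k => y * f (a' k)) (fun k => f (a k)) (RingHom.id L) x k
    rw [hQ1, eval, h]
    have h1 : cmap (RingHom.id L) (cmap f c) = cmap f c := by
      funext k j
      simp [cmap]
    have h2 : (fun k => (RingHom.id L) (y * f (a' k)) + x * (RingHom.id L) (f (a k))) =
        fun k => x * f (a k) + y * f (a' k) := by
      funext k
      simp only [RingHom.id_apply]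
      ring
    rw [h1, h2]
  have e2 : ∀ x : L, Q2.eval x =
      ∑ i ∈ Finset.range (d ^ n + 1), f ((PP c n a a' k).coeff i) * x ^ (d ^ n - i) * y ^ i := by
    intro x
    rw [hQ2, eval_finsetSum]
    refine Finset.sum_congr rfl fun i _ => ?_
    simp only [eval_mul, eval_C, eval_pow, eval_X]
    ring
  have h3 : Polynomial.X * Q1 = Polynomial.X * Q2 := by
    apply Polynomial.funext
    intro x
    by_cases hx : x = 0
    · simp [hx]
    · rw [eval_mul, eval_mul, e1, e2, key x hx]
  have h4 : Q1 = Q2 := mul_left_cancel₀ Polynomial.X_ne_zero h3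
  rw [← e1, h4, e2]

private theorem PP_one_coeff {R : Type*} [CommRing R] {d : ℕ} (c : Fin 2 → Fin (d + 1) → R)
    (a a' : Fin 2 → R) (k : Fin 2) : (PP c 1 a a' k).coeff 1 = dlift c a a' k := by
  have h0 : (PP c 1 a a' k).coeff 1 = (derivative (PP c 1 a a' k)).eval 0 := by
    rw [← coeff_zero_eq_eval_zero, coeff_derivative]
    simp
  rw [h0]
  unfold PP
  rw [Function.iterate_one]
  unfold hlift form dlift dform
  rw [derivative_sum, eval_finsetSum]
  refine Finset.sum_congr rfl fun i _ => ?_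
  simp only [derivative_mul, derivative_pow, derivative_C, derivative_add, derivative_X, eval_add,
    eval_mul, eval_pow, eval_C, eval_X, eval_natCast, eval_zero, eval_one, map_natCast]
  ring

theorem expn {p : ℕ} [Fact p.Prime] {d : ℕ} {c : Fin 2 → Fin (d + 1) → ℚ_[p]} (hc : ∀ k j, ‖c k j‖ ≤ 1) (n : ℕ)
    {a a' : Fin 2 → ℚ_[p]} (ha : ‖a‖ ≤ 1) (ha' : ‖a'‖ ≤ 1) :
    ∃ P : Fin 2 → ℚ_[p][X], (∀ k i, ‖(P k).coeff i‖ ≤ 1) ∧ (∀ k, (P k).natDegree ≤ d ^ n) ∧
      (∀ k, (P k).coeff 0 = (hlift c)^[n] a k) ∧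
      (∀ (t : PadicAlgCl p) k, (hlift (cmap (al p) c))^[n] (lin (vmap (al p) a) (vmap (al p) a') t) k =
        ((P k).map (al p)).eval t) ∧
      ∀ (x y : PadicAlgCl p), (hlift (cmap (al p) c))^[n] (fun k => x * al p (a k) + y * al p (a' k)) =
        fun k => ∑ i ∈ Finset.range (d ^ n + 1), al p ((P k).coeff i) * x ^ (d ^ n - i) * y ^ i := by
  refine ⟨PP c n a a', fun k => PP_itg hc n ha ha' k, PP_deg c n a a', PP_zero c n a a', ?_, ?_⟩
  · intro t k
    rw [eval_map, PP_hom]
    rfl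
  · intro x y
    funext k
    exact PP_two c n a a' (al p) x y k

theorem expn_one {p : ℕ} [Fact p.Prime] {d : ℕ} {c : Fin 2 → Fin (d + 1) → ℚ_[p]} (hc : ∀ k j, ‖c k j‖ ≤ 1)
    {a a' : Fin 2 → ℚ_[p]} (ha : ‖a‖ ≤ 1) (ha' : ‖a'‖ ≤ 1) :
    ∃ P : Fin 2 → ℚ_[p][X], (∀ k i, ‖(P k).coeff i‖ ≤ 1) ∧ (∀ k, (P k).natDegree ≤ d) ∧
      (∀ k, (P k).coeff 0 = hlift c a k) ∧ (∀ k, (P k).coeff 1 = dlift c a a' k) ∧
      (∀ (t : PadicAlgCl p) k, hlift (cmap (al p) c) (lin (vmap (al p) a) (vmap (al p) a') t) k =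
        ((P k).map (al p)).eval t) ∧
      ∀ (x y : PadicAlgCl p), hlift (cmap (al p) c) (fun k => x * al p (a k) + y * al p (a' k)) =
        fun k => ∑ i ∈ Finset.range (d + 1), al p ((P k).coeff i) * x ^ (d - i) * y ^ i := by
  refine ⟨PP c 1 a a', fun k => PP_itg hc 1 ha ha' k, ?_, ?_, PP_one_coeff c a a', ?_, ?_⟩
  · intro k
    have := PP_deg c 1 a a' k
    rwa [pow_one] at this
  · intro k
    exact PP_zero c 1 a a' k
  · intro t k
    rw [eval_map, PP_hom]
    rfl
  · intro x y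
    funext k
    have := PP_two c 1 a a' (al p) x y k
    rw [pow_one, Function.iterate_one] at this
    exact this

end Pool.Agent.SNP
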