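import Pool.Agent.SNP.A.Sim

/-!
# SNP-A-GROWTH: the coordinates of a backward orbit in the residue disc

PROOF. (a) By induction on `k`, for `1 ≤ k ≤ K`: `a₀ < ‖t k‖` and `a₀ ≤ ‖t k‖^(2^k)`. For `k = 1`: `t 0 = 0`, so `a₀ ≤ ‖t 1‖²`, and `‖t 1‖² < ‖t 1‖` since `0 < ‖t 1‖ < 1`. Step: `a₀ < ‖t k‖` gives `‖t k‖ ≤ ‖t (k+1)‖²`, so `‖t k‖ ≤ ‖t (k+1)‖² ≤ ‖t (k+1)‖`, and `a₀ ≤ ‖t k‖^(2^k) ≤ ‖t (k+1)‖^(2^(k+1))`.
In particular `‖t k‖` is nondecreasing for `1 ≤ k ≤ K`. (b) `(p⁻¹)^(2^k₀) < a₀ ≤ ‖t k₀‖^(2^k₀)`, so `p⁻¹ < ‖t k₀‖ ≤ ‖t k‖` for `k₀ ≤ k ≤ K`.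
(c) `Sim (t k₀) (γ^(∑_{i<s} e^i) (t (k₀+s))^(e^s))` by induction on `s`: `Sim (t (k₀+s)) (γ (t (k₀+s+1))^e)`, raise to the power `e^s` and multiply (`Sim.pow`, `Sim.mul`, `Sim.trans`).
-/

set_option autoImplicit false

namespace Pool.Agent.SNP

open Pool.Agent.Helper59.DML

theorem growth {p : ℕ} [Fact p.Prime] {a₀ : ℝ} (ha₀ : 0 < a₀) {e : ℕ} {γ : PadicAlgCl p} (hγ : ‖γ‖ = 1)
    {t : ℕ → PadicAlgCl p} {K : ℕ} (ht0 : t 0 = 0) (ht1 : ∀ k ≤ K, ‖t k‖ < 1)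
    (h1 : ∀ k < K, t k = 0 ∨ a₀ < ‖t k‖ → max a₀ ‖t k‖ ≤ ‖t (k + 1)‖ ^ 2)
    (h2 : ∀ k < K, (p : ℝ)⁻¹ < ‖t k‖ → Sim (t k) (γ * t (k + 1) ^ e)) {k₀ : ℕ} (hk₀ : 1 ≤ k₀)
    (hk₀' : ((p : ℝ)⁻¹) ^ (2 ^ k₀) < a₀) {s : ℕ} (hs : k₀ + s ≤ K) :
    (p : ℝ)⁻¹ < ‖t k₀‖ ∧ Sim (t k₀) (γ ^ (∑ i ∈ Finset.range s, e ^ i) * t (k₀ + s) ^ (e ^ s)) := by
  -- squares of numbers in the open unit interval
  have hsq : ∀ k ≤ K, a₀ ≤ ‖t k‖ ^ 2 → a₀ < ‖t k‖ := by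
    intro k hk h
    have hpos : 0 < ‖t k‖ := by
      rcases (norm_nonneg (t k)).eq_or_lt with h0 | h0
      · rw [← h0] at h
        norm_num at h
        linarith
      · exact h0
    have := ht1 k hk
    nlinarith
  have hA : ∀ k, k + 1 ≤ K → a₀ < ‖t (k + 1)‖ ∧ a₀ ≤ ‖t (k + 1)‖ ^ (2 ^ (k + 1)) := by
    intro k
    induction k with
    | zero =>
      intro hk
      have h := h1 0 (by omega) (Or.inl ht0)
      have h' : a₀ ≤ ‖t (0 + 1)‖ ^ 2 := le_trans (le_max_left _ _) h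
      exact ⟨hsq _ hk h', by simpa using h'⟩
    | succ k ih =>
      intro hk
      obtain ⟨i1, i2⟩ := ih (by omega)
      have h := h1 (k + 1) (by omega) (Or.inr i1)
      have h' : ‖t (k + 1)‖ ≤ ‖t (k + 1 + 1)‖ ^ 2 := le_trans (le_max_right _ _) h
      refine ⟨hsq _ hk (le_trans i1.le h'), ?_⟩
      calc a₀ ≤ ‖t (k + 1)‖ ^ (2 ^ (k + 1)) := i2
        _ ≤ (‖t (k + 1 + 1)‖ ^ 2) ^ (2 ^ (k + 1)) := pow_le_pow_left₀ (norm_nonneg _) h' _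
        _ = ‖t (k + 1 + 1)‖ ^ (2 ^ (k + 1 + 1)) := by
          rw [← pow_mul]
          congr 1
          ring
  have hA' : ∀ k, 1 ≤ k → k ≤ K → a₀ < ‖t k‖ ∧ a₀ ≤ ‖t k‖ ^ (2 ^ k) := by
    intro k hk hkK
    obtain ⟨j, rfl⟩ : ∃ j, k = j + 1 := ⟨k - 1, by omega⟩
    exact hA j hkK
  have hp0 : (p : ℝ)⁻¹ < ‖t k₀‖ := by
    have h := lt_of_lt_of_le hk₀' (hA' k₀ hk₀ (by omega)).2
    exact lt_of_pow_lt_pow_left₀ _ (norm_nonneg _) h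
  have hmono : ∀ s, k₀ + s ≤ K → (p : ℝ)⁻¹ < ‖t (k₀ + s)‖ := by
    intro s
    induction s with
    | zero => intro _; exact hp0
    | succ s ih =>
      intro hs
      have i := ih (by omega)
      have h := h1 (k₀ + s) (by omega) (Or.inr (hA' (k₀ + s) (by omega) (by omega)).1)
      have h' : ‖t (k₀ + s)‖ ≤ ‖t (k₀ + s + 1)‖ ^ 2 := le_trans (le_max_right _ _) h
      have h3 : ‖t (k₀ + s + 1)‖ < 1 := ht1 _ (by omega)
      have h4 : ‖t (k₀ + s + 1)‖ ^ 2 ≤ ‖t (k₀ + s + 1)‖ := by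
        have := norm_nonneg (t (k₀ + s + 1))
        nlinarith
      have : (p : ℝ)⁻¹ < ‖t (k₀ + s + 1)‖ := by linarith
      exact this
  have hγ0 : γ ≠ 0 := by
    intro h
    rw [h, norm_zero] at hγ
    exact zero_ne_one hγ
  refine ⟨hp0, ?_⟩
  have hC : ∀ s, k₀ + s ≤ K → Sim (t k₀) (γ ^ (∑ i ∈ Finset.range s, e ^ i) * t (k₀ + s) ^ (e ^ s)) := by
    intro s
    induction s with
    | zero =>
      intro _
      have hne : t k₀ ≠ 0 := by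
        intro h
        rw [h, norm_zero] at hp0
        have : (0 : ℝ) ≤ (p : ℝ)⁻¹ := by positivity
        linarith
      simpa using Sim.refl hne
    | succ s ih =>
      intro hs
      have i := ih (by omega)
      have h3 := h2 (k₀ + s) (by omega) (hmono s (by omega))
      have h4 := h3.pow (e ^ s)
      have hg : γ ^ (∑ i ∈ Finset.range s, e ^ i) ≠ 0 := pow_ne_zero _ hγ0
      have h5 := (Sim.refl hg).mul h4
      have h6 := i.trans h5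
      have e1 : γ ^ (∑ i ∈ Finset.range s, e ^ i) * (γ * t (k₀ + s + 1) ^ e) ^ (e ^ s)
          = γ ^ (∑ i ∈ Finset.range (s + 1), e ^ i) * t (k₀ + (s + 1)) ^ (e ^ (s + 1)) := by
        rw [Finset.sum_range_succ, pow_add, mul_pow, ← pow_mul, pow_succ' e s, add_assoc, mul_assoc]
      rw [← e1]
      exact h6
  exact hC s hs

end Pool.Agent.SNP
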