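import Pool.Agent.SNP.A.Sim

/-!
# SNP-A-ROOT: roots of unity of order prime to `p` and the reduction

PROOF. (a) `norm_natCast`: `‖(M : ℚ_p)‖ = 1` iff `¬ p ∣ M` (`Padic.norm_natCast_eq_one_iff` or `padicNormE`), and `al p` is an isometry. `‖p‖ = p⁻¹`: `Padic.norm_p`.
(b) `root_inj`: let `z = x / y`, `z^M = 1`, `‖z - 1‖ < 1` (`‖y‖ = 1` because `‖y‖^M = 1`, `M ≠ 0` since `¬ p ∣ M`). If `z ≠ 1` then `∑_{i<M} z^i = (z^M - 1)/(z - 1) = 0`, but `∑ z^i - M = ∑ (z^i - 1)` has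
norm `< 1` and `‖M‖ = 1`, contradiction.
(c) `norm_val`: `g = minpoly ℚ_p x`, `B = natDegree g ≥ 1`. `g` splits in `Ω = PadicAlgCl p`; all roots are conjugate to `x` (normal extension), so they have norm `‖x‖` (`norm_aut`); so `‖g.coeff 0‖ = ‖x‖^B`, `g.coeff 0 ∈ ℚ_p` nonzero, of norm `p^(-A)` with `A ∈ ℤ`,
`A ≥ 1` because `0 < ‖x‖ < 1`. (Or: `spectralNorm`, or `Algebra.norm`; all conjugates of `x` have the same minimal polynomial, so the same spectral norm.)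
-/

set_option autoImplicit false

namespace Pool.Agent.SNP

open Pool.Agent.Helper59.DML

theorem norm_natCast_eq_one {p : ℕ} [Fact p.Prime] {M : ℕ} (hM : ¬ p ∣ M) : ‖(M : PadicAlgCl p)‖ = 1 := by
  have h1 : ‖((M : ℚ_[p]))‖ = 1 :=
    Padic.norm_natCast_eq_one_iff.2 (((Nat.Prime.coprime_iff_not_dvd (Fact.out : p.Prime)).2 hM))
  rw [← norm_al, map_natCast] at h1
  exact h1

theorem norm_p {p : ℕ} [Fact p.Prime] : ‖(p : PadicAlgCl p)‖ = (p : ℝ)⁻¹ := by
  have h1 : ‖((p : ℚ_[p]))‖ = (p : ℝ)⁻¹ := Padic.norm_p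
  rw [← norm_al, map_natCast] at h1
  exact h1

theorem root_inj {p : ℕ} [Fact p.Prime] {M : ℕ} (hM : ¬ p ∣ M) {x y : PadicAlgCl p} (hx : x ^ M = 1) (hy : y ^ M = 1)
    (h : ‖x - y‖ < 1) : x = y := by
  have hM0 : M ≠ 0 := by
    rintro rfl
    exact hM (dvd_zero p)
  have hny : ‖y‖ = 1 := by
    have h1 : ‖y‖ ^ M = 1 := by rw [← norm_pow, hy, norm_one]
    exact (pow_eq_one_iff_of_nonneg (norm_nonneg _) hM0).1 h1
  have hy0 : y ≠ 0 := by
    rintro rfl
    rw [norm_zero] at hny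
    exact zero_ne_one hny
  by_contra hne
  obtain ⟨z, hz⟩ : ∃ z, z = x / y := ⟨_, rfl⟩
  have hzM : z ^ M = 1 := by rw [hz, div_pow, hx, hy, div_one]
  have hz1 : z ≠ 1 := by
    intro h1
    rw [hz, div_eq_one_iff_eq hy0] at h1
    exact hne h1
  have hz2 : ‖z - 1‖ < 1 := by
    have h1 : z - 1 = (x - y) / y := by rw [hz, sub_div, div_self hy0]
    rw [h1, norm_div, hny, div_one]
    exact h
  have hnz : ‖z‖ ≤ 1 := by
    have h1 : ‖z‖ ^ M = 1 := by rw [← norm_pow, hzM, norm_one]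
    exact ((pow_eq_one_iff_of_nonneg (norm_nonneg _) hM0).1 h1).le
  have hpow : ∀ i : ℕ, ‖z ^ i - 1‖ ≤ ‖z - 1‖ := by
    intro i
    induction i with
    | zero => rw [pow_zero, sub_self, norm_zero]; exact norm_nonneg _
    | succ i ih =>
      have h1 : z ^ (i + 1) - 1 = (z ^ i - 1) * z + (z - 1) := by ring
      rw [h1]
      refine (IsUltrametricDist.norm_add_le_max _ _).trans (max_le ?_ le_rfl)
      rw [norm_mul]
      calc ‖z ^ i - 1‖ * ‖z‖ ≤ ‖z - 1‖ * 1 :=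
            mul_le_mul ih hnz (norm_nonneg _) (norm_nonneg _)
        _ = ‖z - 1‖ := mul_one _
  have hgeom : ∑ i ∈ Finset.range M, z ^ i = 0 := by
    have h1 : (∑ i ∈ Finset.range M, z ^ i) * (z - 1) = z ^ M - 1 := geom_sum_mul z M
    rw [hzM, sub_self] at h1
    exact (mul_eq_zero.1 h1).resolve_right (sub_ne_zero.2 hz1)
  have hsum : ∀ n : ℕ, ‖∑ i ∈ Finset.range n, (z ^ i - 1)‖ ≤ ‖z - 1‖ := by
    intro n
    induction n with
    | zero => rw [Finset.range_zero, Finset.sum_empty, norm_zero]; exact norm_nonneg _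
    | succ n ih =>
      rw [Finset.sum_range_succ]
      exact (IsUltrametricDist.norm_add_le_max _ _).trans (max_le ih (hpow n))
  have h3 := hsum M
  rw [Finset.sum_sub_distrib, hgeom, Finset.sum_const, Finset.card_range, zero_sub, norm_neg,
    nsmul_eq_mul, mul_one, norm_natCast_eq_one hM] at h3
  exact absurd hz2 (not_lt.2 h3)

theorem norm_val {p : ℕ} [Fact p.Prime] (x : PadicAlgCl p) (hx : x ≠ 0) (hx1 : ‖x‖ < 1) :
    ∃ A B : ℕ, 1 ≤ A ∧ 1 ≤ B ∧ ‖x‖ ^ B * (p : ℝ) ^ A = 1 := by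
  obtain ⟨g, hg⟩ : ∃ g, g = minpoly ℚ_[p] x := ⟨_, rfl⟩
  have hx2 : ‖x‖ = spectralValue g := by rw [hg]; rfl
  have hpos : 0 < ‖x‖ := norm_pos_iff.2 hx
  obtain ⟨n, hn⟩ : ∃ n, spectralValueTerms g n = spectralValue g := by
    have h1 : sSup (Set.range (spectralValueTerms g)) ∈ Set.range (spectralValueTerms g) :=
      (Set.range_nonempty (spectralValueTerms g)).csSup_mem (spectralValueTerms_finite_range g)
    obtain ⟨n, hn⟩ := h1
    exact ⟨n, hn⟩
  have hlt : n < g.natDegree := by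
    by_contra h
    rw [spectralValueTerms_of_natDegree_le g (not_lt.1 h)] at hn
    rw [hx2, ← hn] at hpos
    exact lt_irrefl _ hpos
  rw [spectralValueTerms_of_lt_natDegree g hlt, ← hx2] at hn
  have hB : 1 ≤ g.natDegree - n := Nat.sub_pos_of_lt hlt
  have hBc : (((g.natDegree - n : ℕ)) : ℝ) = (g.natDegree : ℝ) - n := Nat.cast_sub hlt.le
  have hBne : ((g.natDegree - n : ℕ) : ℝ) ≠ 0 := by
    have : 0 < g.natDegree - n := hB
    exact_mod_cast this.ne'
  have hpw : ‖x‖ ^ (g.natDegree - n) = ‖g.coeff n‖ := by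
    rw [← hn, ← hBc, ← Real.rpow_natCast, ← Real.rpow_mul (norm_nonneg _), one_div,
      inv_mul_cancel₀ hBne, Real.rpow_one]
  have hc0 : g.coeff n ≠ 0 := by
    intro h
    rw [h, norm_zero] at hpw
    exact (pow_pos hpos _).ne' hpw
  have hp1 : (1 : ℝ) < p := by exact_mod_cast (Fact.out : p.Prime).one_lt
  have hval := Padic.norm_eq_zpow_neg_valuation hc0
  have hlt1 : ‖g.coeff n‖ < 1 := by
    rw [← hpw]
    exact pow_lt_one₀ (norm_nonneg _) hx1 (by omega)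
  have hvpos : 0 < (g.coeff n).valuation := by
    by_contra h
    push Not at h
    rw [hval] at hlt1
    have h2 : (1 : ℝ) ≤ (p : ℝ) ^ (-(g.coeff n).valuation) :=
      one_le_zpow₀ hp1.le (by omega)
    exact absurd hlt1 (not_lt.2 h2)
  obtain ⟨A, hA⟩ := Int.eq_ofNat_of_zero_le hvpos.le
  refine ⟨A, g.natDegree - n, by omega, hB, ?_⟩
  rw [hpw, hval, hA, zpow_neg, zpow_natCast]
  exact inv_mul_cancel₀ (pow_pos (by linarith) _).ne'

end Pool.Agent.SNP
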