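import Pool.Agent.SNP.A.Base

/-!
# SNP-A-SIM: the relation `Sim`; automorphisms are isometric

PROOF. (a) Ultrametric: `‖x - y‖ < ‖y‖` gives `‖x‖ = ‖y‖` (`IsUltrametricDist.norm_add_eq_max_of_norm_ne_norm` for `x = (x - y) + y`). Symmetry:
`‖y - x‖ = ‖x - y‖ < ‖y‖ = ‖x‖`. Transitivity: ultrametric inequality. `mul`: `x x' - y y' = (x - y) x' + y (x' - y')`. `pow`: induction (`n = 0`: `‖1 - 1‖ = 0 < 1`).
`inv`: `x⁻¹ - y⁻¹ = (y - x) x⁻¹ y⁻¹`. `div` from `mul` and `inv`.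
(b) `norm_aut`: the norm of `PadicAlgCl p` is the spectral norm, which depends only on the minimal polynomial
(`spectralNorm_eq_of_equiv` or `minpoly.algEquiv_eq`, `PadicAlgCl.spectralNorm_eq`).
-/

set_option autoImplicit false

namespace Pool.Agent.SNP

open Pool.Agent.Helper59.DML

section
variable {K : Type*} [NormedField K] [IsUltrametricDist K] {x y z x' y' : K}

theorem Sim.right_ne (h : Sim x y) : y ≠ 0 := by
  intro hy
  unfold Sim at h
  rw [hy, norm_zero] at h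
  exact absurd h (not_lt.mpr (norm_nonneg _))

theorem Sim.left_ne (h : Sim x y) : x ≠ 0 := by
  intro hx
  unfold Sim at h
  rw [hx, zero_sub, norm_neg] at h
  exact lt_irrefl _ h

theorem Sim.norm_eq (h : Sim x y) : ‖x‖ = ‖y‖ := by
  unfold Sim at h
  have h1 : ‖(x - y) + y‖ = max ‖x - y‖ ‖y‖ :=
    IsUltrametricDist.norm_add_eq_max_of_norm_ne_norm (ne_of_lt h)
  rw [sub_add_cancel, max_eq_right h.le] at h1
  exact h1

theorem Sim.refl (h : x ≠ 0) : Sim x x := by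
  unfold Sim
  rw [sub_self, norm_zero]
  exact norm_pos_iff.mpr h

theorem Sim.symm (h : Sim x y) : Sim y x := by
  have h1 := h.norm_eq
  unfold Sim at h ⊢
  rw [norm_sub_rev, h1]
  exact h

theorem Sim.trans (h : Sim x y) (h' : Sim y z) : Sim x z := by
  have h1 := h'.norm_eq
  unfold Sim at h h' ⊢
  have h2 : ‖(x - y) + (y - z)‖ ≤ max ‖x - y‖ ‖y - z‖ := IsUltrametricDist.norm_add_le_max _ _
  rw [sub_add_sub_cancel] at h2
  rw [h1] at h
  exact lt_of_le_of_lt h2 (max_lt h h')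

theorem Sim.mul (h : Sim x y) (h' : Sim x' y') : Sim (x * x') (y * y') := by
  have hy := norm_pos_iff.mpr h.right_ne
  have hy' := norm_pos_iff.mpr h'.right_ne
  have h1' := h'.norm_eq
  unfold Sim at h h' ⊢
  have e : x * x' - y * y' = (x - y) * x' + y * (x' - y') := by ring
  rw [e, norm_mul]
  refine lt_of_le_of_lt (IsUltrametricDist.norm_add_le_max _ _) (max_lt ?_ ?_)
  · rw [norm_mul, h1']
    exact mul_lt_mul_of_pos_right h hy'
  · rw [norm_mul]
    exact mul_lt_mul_of_pos_left h' hy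

theorem Sim.pow (h : Sim x y) (n : ℕ) : Sim (x ^ n) (y ^ n) := by
  induction n with
  | zero =>
    rw [pow_zero, pow_zero]
    exact Sim.refl one_ne_zero
  | succ n ih =>
    rw [pow_succ, pow_succ]
    exact ih.mul h

theorem Sim.inv (h : Sim x y) : Sim x⁻¹ y⁻¹ := by
  have hx := h.left_ne
  have hy := h.right_ne
  have hxp := norm_pos_iff.mpr hx
  have hyp := norm_pos_iff.mpr hy
  have hn := h.norm_eq
  have hs := h.symm
  unfold Sim at hs ⊢
  have e : x⁻¹ - y⁻¹ = (y - x) * x⁻¹ * y⁻¹ := by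
    field_simp
  rw [e, norm_mul, norm_mul, norm_inv, norm_inv]
  have h1 : ‖y - x‖ * ‖x‖⁻¹ < 1 := by
    rw [← div_eq_mul_inv, div_lt_one hxp]
    exact hs
  calc ‖y - x‖ * ‖x‖⁻¹ * ‖y‖⁻¹ < 1 * ‖y‖⁻¹ := mul_lt_mul_of_pos_right h1 (inv_pos.mpr hyp)
    _ = ‖y‖⁻¹ := one_mul _

theorem Sim.div (h : Sim x y) (h' : Sim x' y') : Sim (x / x') (y / y') := by
  rw [div_eq_mul_inv, div_eq_mul_inv]
  exact h.mul h'.inv

theorem Sim.cancel_left (hz : z ≠ 0) (h : Sim (z * x) (z * y)) : Sim x y := by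
  unfold Sim at h ⊢
  rw [← mul_sub, norm_mul, norm_mul] at h
  exact lt_of_mul_lt_mul_left h (norm_nonneg z)

theorem sim_of_norm (hy : ‖y‖ = 1) (h : ‖x - y‖ < 1) : Sim x y := by
  unfold Sim
  rw [hy]
  exact h

theorem Sim.unit (h : Sim x y) (hy : ‖y‖ = 1) : ‖x - y‖ < 1 := by
  unfold Sim at h
  rw [hy] at h
  exact h

end

theorem norm_aut {p : ℕ} [Fact p.Prime] (τ : PadicAlgCl p ≃ₐ[ℚ_[p]] PadicAlgCl p) (x : PadicAlgCl p) :
    ‖τ x‖ = ‖x‖ := by
  rw [← PadicAlgCl.spectralNorm_eq, ← PadicAlgCl.spectralNorm_eq]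
  exact (spectralNorm_eq_of_equiv τ x).symm

theorem norm_al {p : ℕ} [Fact p.Prime] (x : ℚ_[p]) : ‖al p x‖ = ‖x‖ := by
  exact PadicAlgCl.norm_extends p x

theorem Sim.aut {p : ℕ} [Fact p.Prime] (τ : PadicAlgCl p ≃ₐ[ℚ_[p]] PadicAlgCl p) {x y : PadicAlgCl p} (h : Sim x y) :
    Sim (τ x) (τ y) := by
  unfold Sim at h ⊢
  rw [← map_sub, norm_aut, norm_aut]
  exact h

end Pool.Agent.SNP
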